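import Mathlib
import Pool.Agent.W953.PT.Depth

/-!
# The rank argument over an arbitrary field
-/

set_option autoImplicit false

namespace Pool.Agent.W953.SP

open Finset

section

variable {F : Type*} [Field F]

/-- the matrix `A` restricted to rows in `U` and columns in `V` -/
def mask {X Y : Type*} (A : Matrix X Y F) (U : X → Prop) (V : Y → Prop) [DecidablePred U]
    [DecidablePred V] : Matrix X Y F :=
  Matrix.of fun x y => if U x ∧ V y then A x y else 0

variable {X Y : Type*} [Fintype X] [Fintype Y] [DecidableEq X] [DecidableEq Y]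

omit [Fintype X] [DecidableEq X] [DecidableEq Y] in
lemma rank_add_le' (A B : Matrix X Y F) : (A + B).rank ≤ A.rank + B.rank := by
  unfold Matrix.rank
  have h : LinearMap.range (A + B).mulVecLin ≤
      LinearMap.range A.mulVecLin ⊔ LinearMap.range B.mulVecLin := by
    rintro _ ⟨v, rfl⟩
    rw [Matrix.mulVecLin_add, LinearMap.add_apply]
    exact Submodule.add_mem_sup ⟨v, rfl⟩ ⟨v, rfl⟩
  exact (Submodule.finrank_mono h).trans (Submodule.finrank_add_le_finrank_add_finrank _ _)

omit [Fintype X] [DecidableEq X] [DecidableEq Y] in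
lemma rank_sum_le {ι : Type*} (s : Finset ι) (M : ι → Matrix X Y F) (r : ℕ)
    (h : ∀ i ∈ s, (M i).rank ≤ r) : (∑ i ∈ s, M i).rank ≤ s.card * r := by
  classical
  induction s using Finset.induction_on with
  | empty => simp
  | insert a s ha ih =>
    rw [Finset.sum_insert ha, Finset.card_insert_of_notMem ha]
    refine (rank_add_le' _ _).trans ?_
    have h1 := h a (Finset.mem_insert_self a s)
    have h2 := ih (fun i hi => h i (Finset.mem_insert_of_mem hi))
    have : (s.card + 1) * r = s.card * r + r := by ring
    omega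

end

section

variable {V : Type} [Fintype V] [DecidableEq V] {q : ℕ} {F : Type*} [Field F]

/-- `1` if the bit is `0` -/
def ynot (F : Type*) [Field F] (y : V → Fin q → Bool) (i : V) (c : Fin q) : F :=
  if y i c = true then 0 else 1

/-- the lifted matrix of the family `R` -/
def amat (F : Type*) [Field F] (q : ℕ) (R : Finset (Finset V)) :
    Matrix (V → Fin q) (V → Fin q → Bool) F :=
  Matrix.of fun x y => ∑ S ∈ R, (-1) ^ S.card * ∏ i ∈ Sᶜ, ynot F y i (x i)

/-- the test input -/
def ytest (a : V → Fin q) (w : V → Bool) : V → Fin q → Bool := fun i c => decide (c = a i) && w i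

/-- the dual matrix -/
def phi (F : Type*) [Field F] (q : ℕ) (V : Type) [Fintype V] [DecidableEq V] :
    Matrix (V → Fin q → Bool) (V → Fin q) F :=
  Matrix.of fun y a =>
    ∑ w : V → Bool, if y = ytest a w then (∏ i, (if w i = true then (-1 : F) else 1)) else 0

lemma sum_test (S : Finset V) (x a : V → Fin q) :
    ∑ w : V → Bool, (∏ i, (if w i = true then (-1 : F) else 1)) *
      ∏ i ∈ Sᶜ, ynot F (ytest a w) i (x i) = if S = ∅ ∧ x = a then 1 else 0 := by
  have h1 : ∀ w : V → Bool, (∏ i, (if w i = true then (-1 : F) else 1)) *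
      ∏ i ∈ Sᶜ, ynot F (ytest a w) i (x i) =
      ∏ i, (if w i = true then (-1 : F) else 1) *
        (if i ∈ S then 1 else if x i = a i ∧ w i = true then 0 else 1) := by
    intro w
    rw [Finset.prod_mul_distrib]
    congr 1
    rw [← Finset.prod_subset (Finset.subset_univ Sᶜ)]
    · apply Finset.prod_congr rfl
      intro i hi
      rw [Finset.mem_compl] at hi
      rw [if_neg hi]
      unfold ynot ytest
      simp only [Bool.and_eq_true, decide_eq_true_eq]
    · intro i _ hi
      rw [Finset.mem_compl, not_not] at hi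
      rw [if_pos hi]
  simp only [h1]
  have h2 := Finset.prod_univ_sum (ι := V) (R := F) (fun _ => (univ : Finset Bool))
    (fun i b => (if b = true then (-1 : F) else 1) *
        (if i ∈ S then 1 else if x i = a i ∧ b = true then 0 else 1))
  rw [Fintype.piFinset_univ] at h2
  rw [← h2]
  by_cases h : S = ∅ ∧ x = a
  · rw [if_pos h]
    obtain ⟨rfl, rfl⟩ := h
    apply Finset.prod_eq_one
    intro i _
    simp
  · rw [if_neg h]
    by_cases hS : S = ∅
    · have hx : x ≠ a := fun hx => h ⟨hS, hx⟩
      obtain ⟨i, hi⟩ := Function.ne_iff.mp hx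
      apply Finset.prod_eq_zero (Finset.mem_univ i)
      simp [hS, hi]
    · obtain ⟨i, hi⟩ := Finset.nonempty_iff_ne_empty.mpr hS
      apply Finset.prod_eq_zero (Finset.mem_univ i)
      simp [hi]

theorem amat_phi (R : Finset (Finset V)) (hR : ∅ ∈ R) :
    amat F q R * phi F q V = 1 := by
  ext x a
  rw [Matrix.mul_apply]
  simp only [phi, Matrix.of_apply, Finset.mul_sum]
  rw [Finset.sum_comm]
  have e1 : ∀ w : V → Bool, ∑ y : V → Fin q → Bool, amat F q R x y *
      (if y = ytest a w then (∏ i, (if w i = true then (-1 : F) else 1)) else 0) =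
      amat F q R x (ytest a w) * ∏ i, (if w i = true then (-1 : F) else 1) := by
    intro w
    rw [Finset.sum_eq_single (ytest a w)]
    · rw [if_pos rfl]
    · intro y _ hy
      rw [if_neg hy, mul_zero]
    · intro hn
      exact absurd (Finset.mem_univ _) hn
  simp only [e1]
  have e2 : ∀ w : V → Bool, amat F q R x (ytest a w) *
      (∏ i, (if w i = true then (-1 : F) else 1)) =
      ∑ S ∈ R, (-1) ^ S.card * ((∏ i, (if w i = true then (-1 : F) else 1)) *
        ∏ i ∈ Sᶜ, ynot F (ytest a w) i (x i)) := by
    intro w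
    unfold amat
    rw [Matrix.of_apply, Finset.sum_mul]
    apply Finset.sum_congr rfl
    intro S _
    ring
  simp only [e2]
  rw [Finset.sum_comm]
  have e3 : ∀ S ∈ R, ∑ w : V → Bool, (-1) ^ S.card *
      ((∏ i, (if w i = true then (-1 : F) else 1)) * ∏ i ∈ Sᶜ, ynot F (ytest a w) i (x i)) =
      (-1) ^ S.card * (if S = ∅ ∧ x = a then 1 else 0) := by
    intro S _
    rw [← Finset.mul_sum, sum_test]
  rw [Finset.sum_congr rfl e3]
  by_cases hx : x = a
  · subst hx
    rw [Matrix.one_apply_eq, Finset.sum_eq_single ∅]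
    · simp
    · intro S _ hS
      simp [hS]
    · intro hn
      exact absurd hR hn
  · rw [Matrix.one_apply_ne hx]
    apply Finset.sum_eq_zero
    intro S _
    simp [hx]

/-- cancellation -/
lemma amat_cancel (R : Finset (Finset V)) (d : ℕ) (P : Finset V) (v : V) (hv : v ∉ P)
    (hd : ∀ S ∈ R, S.card ≤ d)
    (c1 : ∀ S ∈ R, P ⊆ S → v ∉ S → S.card < d → insert v S ∈ R)
    (c2 : ∀ S ∈ R, P ⊆ S → v ∈ S → S.erase v ∈ R)
    (x : V → Fin q) (y : V → Fin q → Bool) (h1 : ∀ i ∈ P, y i (x i) = true)
    (h2 : y v (x v) = false) :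
    amat F q R x y = ∑ S ∈ R.filter (fun S => P ⊆ S ∧ v ∉ S ∧ S.card = d),
      (-1) ^ S.card * ∏ i ∈ (insert v S)ᶜ, ynot F y i (x i) := by
  -- the terms only depend on `insert v S`
  have hterm : ∀ S : Finset V, ∏ i ∈ Sᶜ, ynot F y i (x i) =
      if P ⊆ S then ∏ i ∈ (insert v S)ᶜ, ynot F y i (x i) else 0 := by
    intro S
    by_cases hP : P ⊆ S
    · rw [if_pos hP]
      by_cases hvS : v ∈ S
      · rw [Finset.insert_eq_of_mem hvS]
      · have : Sᶜ = insert v (insert v S)ᶜ := by
          ext i
          simp only [Finset.mem_compl, Finset.mem_insert]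
          constructor
          · intro hi
            by_cases hiv : i = v
            · exact Or.inl hiv
            · right
              rintro (h | h)
              · exact hiv h
              · exact hi h
          · rintro (rfl | h)
            · exact hvS
            · exact fun hi => h (Or.inr hi)
        rw [this, Finset.prod_insert (by simp)]
        have : ynot F y v (x v) = 1 := by unfold ynot; simp [h2]
        rw [this, one_mul]
    · rw [if_neg hP]
      obtain ⟨i, hi, hiS⟩ := Finset.not_subset.mp hP
      apply Finset.prod_eq_zero (Finset.mem_compl.mpr hiS)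
      unfold ynot
      rw [if_pos (h1 i hi)]
  unfold amat
  rw [Matrix.of_apply]
  have e1 : ∀ S ∈ R, (-1 : F) ^ S.card * ∏ i ∈ Sᶜ, ynot F y i (x i) =
      if P ⊆ S then (-1) ^ S.card * ∏ i ∈ (insert v S)ᶜ, ynot F y i (x i) else 0 := by
    intro S _
    rw [hterm]
    by_cases hP : P ⊆ S
    · rw [if_pos hP, if_pos hP]
    · rw [if_neg hP, if_neg hP, mul_zero]
  rw [Finset.sum_congr rfl e1, ← Finset.sum_filter]
  -- split off the uncancelled terms
  rw [← Finset.sum_filter_add_sum_filter_not (R.filter (fun S => P ⊆ S))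
    (fun S => v ∉ S ∧ S.card = d)]
  have e2 : ∑ S ∈ (R.filter (fun S => P ⊆ S)).filter (fun S => ¬ (v ∉ S ∧ S.card = d)),
      (-1 : F) ^ S.card * ∏ i ∈ (insert v S)ᶜ, ynot F y i (x i) = 0 := by
    refine Finset.sum_involution
      (fun S _ => if v ∈ S then S.erase v else insert v S) ?_ ?_ ?_ ?_
    · -- the two terms cancel
      intro S hS
      by_cases hvS : v ∈ S
      · rw [if_pos hvS]
        rw [Finset.insert_erase hvS, Finset.insert_eq_of_mem hvS, Finset.card_erase_of_mem hvS]
        have hc : 0 < S.card := Finset.card_pos.mpr ⟨v, hvS⟩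
        obtain ⟨m, hm⟩ : ∃ m, S.card = m + 1 := ⟨S.card - 1, by omega⟩
        rw [hm, Nat.add_sub_cancel, pow_succ]
        ring
      · rw [if_neg hvS]
        rw [Finset.insert_idem, Finset.card_insert_of_notMem hvS, pow_succ]
        ring
    · intro S hS _
      by_cases hvS : v ∈ S
      · rw [if_pos hvS]
        intro h
        rw [← h] at hvS
        simp at hvS
      · rw [if_neg hvS]
        intro h
        rw [← h] at hvS
        simp at hvS
    · intro S hS
      simp only [Finset.mem_filter, not_and_or, not_not] at hS ⊢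
      obtain ⟨⟨hSR, hPS⟩, hS2⟩ := hS
      by_cases hvS : v ∈ S
      · rw [if_pos hvS]
        refine ⟨⟨c2 S hSR hPS hvS, ?_⟩, ?_⟩
        · intro i hi
          exact Finset.mem_erase.mpr ⟨fun h => hv (h ▸ hi), hPS hi⟩
        · right
          rw [Finset.card_erase_of_mem hvS]
          have hc : 0 < S.card := Finset.card_pos.mpr ⟨v, hvS⟩
          have := hd S hSR
          omega
      · rw [if_neg hvS]
        have hne : S.card ≠ d := by
          rcases hS2 with h | h
          · exact absurd h hvS
          · exact h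
        have hlt : S.card < d := lt_of_le_of_ne (hd S hSR) hne
        exact ⟨⟨c1 S hSR hPS hvS hlt, hPS.trans (Finset.subset_insert _ _)⟩,
          Or.inl (Finset.mem_insert_self _ _)⟩
    · intro S hS
      by_cases hvS : v ∈ S
      · simp [hvS, Finset.insert_erase hvS]
      · simp [hvS, Finset.erase_insert hvS]
  rw [e2, add_zero, Finset.filter_filter]

/-- The upper bound for the rank of the submatrix of a clause. -/
theorem mask_rank (R : Finset (Finset V)) (d : ℕ) (P : Finset V) (v : V) (hv : v ∉ P)
    (hd : ∀ S ∈ R, S.card ≤ d)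
    (c1 : ∀ S ∈ R, P ⊆ S → v ∉ S → S.card < d → insert v S ∈ R)
    (c2 : ∀ S ∈ R, P ⊆ S → v ∈ S → S.erase v ∈ R)
    (U : (V → Fin q) → Prop) (W : (V → Fin q → Bool) → Prop) [DecidablePred U] [DecidablePred W]
    (hUW : ∀ x y, U x → W y → (∀ i ∈ P, y i (x i) = true) ∧ y v (x v) = false) :
    (mask (amat F q R) U W).rank ≤
      (Fintype.card V).choose d * q ^ (Fintype.card V - (d + 1)) := by
  classical
  set R' := R.filter (fun S => P ⊆ S ∧ v ∉ S ∧ S.card = d) with hR'
  let M : Finset V → Matrix (V → Fin q) (V → Fin q → Bool) F := fun S => Matrix.of fun x y =>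
    if U x ∧ W y then (-1) ^ S.card * ∏ i ∈ (insert v S)ᶜ, ynot F y i (x i) else 0
  have hsum : mask (amat F q R) U W = ∑ S ∈ R', M S := by
    ext x y
    rw [Matrix.sum_apply]
    simp only [mask, Matrix.of_apply, M]
    by_cases h : U x ∧ W y
    · simp only [if_pos h]
      obtain ⟨h1, h2⟩ := hUW x y h.1 h.2
      exact amat_cancel R d P v hv hd c1 c2 x y h1 h2
    · simp only [if_neg h, Finset.sum_const_zero]
  rw [hsum]
  have hM : ∀ S ∈ R', (M S).rank ≤ q ^ (Fintype.card V - (d + 1)) := by
    intro S hS
    rw [hR', Finset.mem_filter] at hS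
    obtain ⟨-, -, hvS, hSd⟩ := hS
    let Cs := {i // i ∈ (insert v S)ᶜ} → Fin q
    let E : Matrix (V → Fin q) Cs F := Matrix.of fun x c =>
      if U x ∧ (fun i : {i // i ∈ (insert v S)ᶜ} => x i.1) = c then 1 else 0
    let G : Matrix Cs (V → Fin q → Bool) F := Matrix.of fun c y =>
      if W y then (-1) ^ S.card * ∏ i : {i // i ∈ (insert v S)ᶜ}, ynot F y i.1 (c i) else 0
    have hEG : M S = E * G := by
      ext x y
      rw [Matrix.mul_apply]
      simp only [E, G, M, Matrix.of_apply]
      by_cases hU : U x
      · rw [Finset.sum_eq_single (fun i : {i // i ∈ (insert v S)ᶜ} => x i.1)]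
        · simp only [hU, true_and, if_true, one_mul]
          by_cases hW : W y
          · rw [if_pos hW, if_pos hW]
            congr 1
            exact (Finset.prod_coe_sort (insert v S)ᶜ (fun i => ynot F y i (x i))).symm
          · rw [if_neg hW, if_neg hW]
        · intro c _ hc
          rw [if_neg (fun h => hc h.2.symm), zero_mul]
        · intro hn
          exact absurd (Finset.mem_univ _) hn
      · rw [if_neg (fun h => hU h.1)]
        symm
        apply Finset.sum_eq_zero
        intro c _
        rw [if_neg (fun h => hU h.1), zero_mul]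
    rw [hEG]
    refine (Matrix.rank_mul_le_left E G).trans ((Matrix.rank_le_card_width E).trans ?_)
    rw [Fintype.card_fun, Fintype.card_fin, Fintype.card_coe, Finset.card_compl,
      Finset.card_insert_of_notMem hvS, hSd]
  refine (rank_sum_le R' M _ hM).trans ?_
  apply Nat.mul_le_mul_right
  have hsub : R' ⊆ (univ : Finset V).powersetCard d := by
    intro S hS
    rw [hR', Finset.mem_filter] at hS
    rw [Finset.mem_powersetCard]
    exact ⟨Finset.subset_univ _, hS.2.2.2⟩
  refine (Finset.card_le_card hsub).trans ?_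
  rw [Finset.card_powersetCard, Finset.card_univ]

/-- The submatrix of the sink clause vanishes. -/
theorem mask_sink (R : Finset (Finset V)) (t : V) (ht : ∀ S ∈ R, t ∉ S)
    (U : (V → Fin q) → Prop) (W : (V → Fin q → Bool) → Prop) [DecidablePred U] [DecidablePred W]
    (hUW : ∀ x y, U x → W y → y t (x t) = true) :
    (mask (amat F q R) U W).rank = 0 := by
  have : mask (amat F q R) U W = 0 := by
    ext x y
    simp only [mask, Matrix.of_apply, Matrix.zero_apply]
    by_cases h : U x ∧ W y
    · rw [if_pos h]
      have h1 := hUW x y h.1 h.2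
      unfold amat
      rw [Matrix.of_apply]
      apply Finset.sum_eq_zero
      intro S hS
      rw [Finset.prod_eq_zero (Finset.mem_compl.mpr (ht S hS)), mul_zero]
      unfold ynot
      rw [if_pos h1]
    · rw [if_neg h]
  rw [this, Matrix.rank_zero]

end

end Pool.Agent.W953.SP
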