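import Mathlib
import Pool.Agent.W953.SP.Rank

/-!
# Monotone span programs
-/

set_option autoImplicit false

namespace Pool.Agent.W953.SP

open Finset

/-- A monotone span program on the variables `I`: a field `F`, a vector space `W` over `F`, a target
vector, a set `free` of vectors that are always available, and `size` many rows; a row is a vector
of `W` that is available if the variable that labels it is `1`. -/
structure MSP (I : Type) where
  F : Type
  [fld : Field F]
  W : Type
  [grp : AddCommGroup W]
  [mod : Module F W]
  size : ℕ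
  lab : Fin size → I
  vec : Fin size → W
  free : Set W
  target : W

attribute [instance] MSP.fld MSP.grp MSP.mod

namespace MSP

variable {I : Type}

/-- the span program accepts `x` if the target is a linear combination of available vectors -/
def Acc (P : MSP I) (x : I → Bool) : Prop :=
  P.target ∈ Submodule.span P.F (P.free ∪ P.vec '' {r | x (P.lab r) = true})

lemma Acc.mono {P : MSP I} {x y : I → Bool} (hxy : ∀ i, x i = true → y i = true)
    (h : P.Acc x) : P.Acc y := by
  refine Submodule.span_mono (Set.union_subset_union_right _ (Set.image_mono ?_)) h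
  intro r hr
  exact hxy _ hr

/-- The rank measure is at most the size of the span program. -/
theorem rank_le {X Y : Type} [Fintype X] [Fintype Y] [DecidableEq X] [DecidableEq Y]
    (P : MSP I) (A : Matrix X Y P.F) (α : X → I → Bool) (β : Y → I → Bool) (U : X → Prop)
    [DecidablePred U] (hU : ∀ x, U x → P.Acc (α x)) (hβ : ∀ y, ¬ P.Acc (β y)) (m : ℕ)
    (hm : ∀ i, (mask A (fun x => α x i = true) (fun y => β y i = false)).rank ≤ m) :
    (mask A U (fun _ => True)).rank ≤ P.size * m := by
  classical
  -- coefficients
  have h1 : ∀ x, U x → ∃ c : Fin P.size → P.F, (∀ r, c r ≠ 0 → α x (P.lab r) = true) ∧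
      ∃ f ∈ Submodule.span P.F P.free, f + ∑ r, c r • P.vec r = P.target := by
    intro x hx
    have h := hU x hx
    unfold Acc at h
    rw [Submodule.span_union, Submodule.mem_sup] at h
    obtain ⟨f, hf, g, hg, hfg⟩ := h
    rw [Finsupp.mem_span_image_iff_linearCombination] at hg
    obtain ⟨l, hl, hl2⟩ := hg
    refine ⟨fun r => l r, fun r hr => ?_, f, hf, ?_⟩
    · exact hl (Finsupp.mem_support_iff.mpr hr)
    · rw [Finsupp.linearCombination_apply] at hl2
      rw [← hfg, ← hl2, Finsupp.sum_fintype]
      intro i
      simp
  choose! c hc1 hc2 using h1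
  -- functionals
  have h2 : ∀ y, ∃ φ : P.W →ₗ[P.F] P.F, φ P.target = 1 ∧
      (∀ f ∈ Submodule.span P.F P.free, φ f = 0) ∧
      ∀ r, β y (P.lab r) = true → φ (P.vec r) = 0 := by
    intro y
    obtain ⟨f, hf1, hf2⟩ := Submodule.exists_le_ker_of_notMem (hβ y)
    refine ⟨(f P.target)⁻¹ • f, ?_, fun g hg => ?_, fun r hr => ?_⟩
    · simp [hf1]
    · have : f g = 0 := hf2 (Submodule.span_mono Set.subset_union_left hg)
      simp [this]
    · have : f (P.vec r) = 0 := hf2 (Submodule.subset_span (Or.inr ⟨r, hr, rfl⟩))
      simp [this]
  choose φ hφ1 hφ0 hφ2 using h2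
  -- the decomposition
  let M : Fin P.size → Matrix X Y P.F := fun r =>
    Matrix.diagonal (fun x => if U x then c x r else 0) *
      (mask A (fun x => α x (P.lab r) = true) (fun y => β y (P.lab r) = false) *
        Matrix.diagonal (fun y => φ y (P.vec r)))
  have hM : ∀ r ∈ (univ : Finset (Fin P.size)), (M r).rank ≤ m := fun r _ =>
    (Matrix.rank_mul_le_right _ _).trans ((Matrix.rank_mul_le_left _ _).trans (hm _))
  have hsum : mask A U (fun _ => True) = ∑ r, M r := by
    ext x y
    rw [Matrix.sum_apply]
    have hMe : ∀ r, M r x y = (if U x then c x r else 0) *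
        ((if α x (P.lab r) = true ∧ β y (P.lab r) = false then A x y else 0) *
          φ y (P.vec r)) := by
      intro r
      simp only [M]
      rw [Matrix.diagonal_mul, Matrix.mul_diagonal]
      rfl
    simp only [hMe, mask, Matrix.of_apply, and_true]
    by_cases hx : U x
    · simp only [if_pos hx]
      have e1 : A x y = ∑ r, c x r * (A x y * φ y (P.vec r)) := by
        have e2 : ∑ r, c x r * φ y (P.vec r) = 1 := by
          obtain ⟨f, hf, hfs⟩ := hc2 x hx
          rw [← hφ1 y, ← hfs, map_add, hφ0 y f hf, zero_add, map_sum]
          refine Finset.sum_congr rfl (fun r _ => ?_)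
          rw [map_smul, smul_eq_mul]
        calc A x y = A x y * ∑ r, c x r * φ y (P.vec r) := by rw [e2, mul_one]
          _ = ∑ r, c x r * (A x y * φ y (P.vec r)) := by
            rw [Finset.mul_sum]
            refine Finset.sum_congr rfl (fun r _ => ?_)
            ring
      refine e1.trans (Finset.sum_congr rfl (fun r _ => ?_))
      by_cases h3 : c x r = 0
      · rw [h3, zero_mul, zero_mul]
      by_cases h4 : φ y (P.vec r) = 0
      · rw [h4, mul_zero, mul_zero, mul_zero, mul_zero]
      have h5 := hc1 x hx r h3
      have h6 : β y (P.lab r) = false := by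
        by_contra hne
        rw [Bool.not_eq_false] at hne
        exact h4 (hφ2 y r hne)
      rw [if_pos ⟨h5, h6⟩]
    · simp only [if_neg hx, zero_mul, Finset.sum_const_zero]
  rw [hsum]
  refine (rank_sum_le univ M m hM).trans ?_
  rw [Finset.card_univ, Fintype.card_fin]

end MSP

/-- counting -/
theorem card_le_rank {F : Type*} [Field F] {X Y : Type} [Fintype X] [Fintype Y] [DecidableEq X]
    [DecidableEq Y] (A : Matrix X Y F) (Φ : Matrix Y X F) (hA : A * Φ = 1) (U : X → Prop)
    [DecidablePred U] : (univ.filter U).card ≤ (mask A U (fun _ => True)).rank := by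
  classical
  have h1 : mask A U (fun _ => True) * Φ = Matrix.diagonal (fun x => if U x then (1 : F) else 0) := by
    have e : mask A U (fun _ => True) =
        Matrix.diagonal (fun x => if U x then (1 : F) else 0) * A := by
      ext x y
      rw [Matrix.diagonal_mul]
      simp only [mask, Matrix.of_apply, and_true]
      by_cases hx : U x
      · rw [if_pos hx, if_pos hx, one_mul]
      · rw [if_neg hx, if_neg hx, zero_mul]
    rw [e, Matrix.mul_assoc, hA, Matrix.mul_one]
  have h2 := Matrix.rank_mul_le_left (mask A U (fun _ => True)) Φ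
  rw [h1, Matrix.rank_diagonal] at h2
  refine le_trans (le_of_eq ?_) h2
  rw [Fintype.card_subtype]
  congr 1
  ext x
  simp only [Finset.mem_filter, Finset.mem_univ, true_and]
  by_cases hx : U x
  · simp [hx]
  · simp [hx]

end Pool.Agent.W953.SP
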