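import Mathlib
import Pool.Agent.W953.SP.Span

/-!
# Computations in rounds of monotone tests
-/

set_option autoImplicit false

namespace Pool.Agent.W953.SP

open Finset

universe u

/-- A computation in rounds: `ask w Q next` asks the `w` tests `Q` simultaneously and continues with
`next a`, where `a` is the vector of the answers; `out P` returns the answer of the test `P`. -/
inductive Prog (T : Type u) : Type u
  | out (P : T) : Prog T
  | ask (w : ℕ) (Q : Fin w → T) (next : (Fin w → Bool) → Prog T) : Prog T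

/-- Tests for inputs `I → Bool`: acceptance and size. -/
structure Tests (T : Type u) (I : Type) where
  acc : T → (I → Bool) → Prop
  size : T → ℕ

namespace Prog

variable {T : Type u} {I : Type} (𝒯 : Tests T I)

open Classical in
/-- the answers to the tests `Q` -/
noncomputable def ans {w : ℕ} (Q : Fin w → T) (x : I → Bool) : Fin w → Bool :=
  fun i => decide (𝒯.acc (Q i) x)

/-- the computation accepts `x` -/
def Acc : Prog T → (I → Bool) → Prop
  | out P, x => 𝒯.acc P x
  | ask _ Q next, x => Acc (next (ans 𝒯 Q x)) x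

/-- the maximum over the paths of the product of the numbers `w + 1` -/
def cost : Prog T → ℕ
  | out _ => 1
  | ask w _ next => (w + 1) * univ.sup fun a => cost (next a)

/-- the maximum over the paths of the total size of the tests -/
def load : Prog T → ℕ
  | out P => 𝒯.size P
  | ask _ Q next => ∑ i, 𝒯.size (Q i) + univ.sup fun a => load (next a)

/-- the transcript -/
noncomputable def tr : Prog T → (I → Bool) → List (List Bool)
  | out _, _ => []
  | ask _ Q next, x => List.ofFn (ans 𝒯 Q x) :: tr (next (ans 𝒯 Q x)) x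

open Classical in
/-- the potential -/
noncomputable def pot : Prog T → (I → Bool) → ℕ
  | out _, _ => 0
  | ask _ Q next, x => (univ.filter (fun i => ans 𝒯 Q x i = true)).card *
      (univ.sup fun a => cost (next a)) + pot (next (ans 𝒯 Q x)) x

lemma cost_pos : ∀ p : Prog T, 0 < cost p
  | out _ => Nat.one_pos
  | ask w _ next => by
    have h := cost_pos (next (fun _ => false))
    have h2 := Finset.le_sup (f := fun a => cost (next a)) (Finset.mem_univ (fun _ => false))
    exact Nat.mul_pos (Nat.succ_pos _) (lt_of_lt_of_le h h2)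

lemma pot_lt : ∀ (p : Prog T) (x : I → Bool), pot 𝒯 p x < cost p
  | out _, _ => Nat.one_pos
  | ask w Q next, x => by
    have h := pot_lt (next (ans 𝒯 Q x)) x
    have h2 := Finset.le_sup (f := fun a => cost (next a)) (Finset.mem_univ (ans 𝒯 Q x))
    have h3 : (univ.filter (fun i => ans 𝒯 Q x i = true)).card ≤ w :=
      (Finset.card_filter_le _ _).trans (by rw [Finset.card_univ, Fintype.card_fin])
    show (univ.filter (fun i => ans 𝒯 Q x i = true)).card * (univ.sup fun a => cost (next a)) +
      pot 𝒯 (next (ans 𝒯 Q x)) x < (w + 1) * (univ.sup fun a => cost (next a))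
    have h4 := Nat.mul_le_mul_right (univ.sup fun a => cost (next a)) h3
    rw [Nat.add_mul, Nat.one_mul]
    omega

/-- monotone tests -/
def Mono : Prop := ∀ P x y, (∀ i, x i = true → y i = true) → 𝒯.acc P x → 𝒯.acc P y

variable {𝒯}

lemma ans_iff {w : ℕ} (Q : Fin w → T) (x : I → Bool) (i : Fin w) :
    ans 𝒯 Q x i = true ↔ 𝒯.acc (Q i) x :=
  @decide_eq_true_iff _ (Classical.propDecidable _)

lemma ans_mono (hm : Mono 𝒯) {w : ℕ} (Q : Fin w → T) {x y : I → Bool}
    (hxy : ∀ i, x i = true → y i = true) (i : Fin w) (h : ans 𝒯 Q x i = true) :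
    ans 𝒯 Q y i = true := by
  rw [ans_iff] at h ⊢
  exact hm _ _ _ hxy h

lemma pot_mono (hm : Mono 𝒯) : ∀ (p : Prog T) {x y : I → Bool},
    (∀ i, x i = true → y i = true) →
    pot 𝒯 p x ≤ pot 𝒯 p y ∧ (tr 𝒯 p x ≠ tr 𝒯 p y → pot 𝒯 p x < pot 𝒯 p y)
  | out _, x, y, _ => ⟨le_rfl, fun h => absurd rfl h⟩
  | ask w Q next, x, y, hxy => by
    by_cases ha : ans 𝒯 Q x = ans 𝒯 Q y
    · obtain ⟨h1, h2⟩ := pot_mono hm (next (ans 𝒯 Q x)) hxy
      have e1 : pot 𝒯 (ask w Q next) x = (univ.filter (fun i => ans 𝒯 Q x i = true)).card *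
        (univ.sup fun a => cost (next a)) + pot 𝒯 (next (ans 𝒯 Q x)) x := rfl
      have e2 : pot 𝒯 (ask w Q next) y = (univ.filter (fun i => ans 𝒯 Q x i = true)).card *
        (univ.sup fun a => cost (next a)) + pot 𝒯 (next (ans 𝒯 Q x)) y := by rw [ha]; rfl
      have e3 : tr 𝒯 (ask w Q next) x = List.ofFn (ans 𝒯 Q x) :: tr 𝒯 (next (ans 𝒯 Q x)) x := rfl
      have e4 : tr 𝒯 (ask w Q next) y = List.ofFn (ans 𝒯 Q x) :: tr 𝒯 (next (ans 𝒯 Q x)) y := by
        rw [ha]; rfl
      refine ⟨by omega, fun h => ?_⟩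
      rw [e3, e4] at h
      have := h2 (fun h3 => h (by rw [h3]))
      omega
    · have hsub : univ.filter (fun i => ans 𝒯 Q x i = true) ⊆
          univ.filter (fun i => ans 𝒯 Q y i = true) := by
        intro i hi
        rw [Finset.mem_filter] at hi ⊢
        exact ⟨hi.1, ans_mono hm Q hxy i hi.2⟩
      have hss : univ.filter (fun i => ans 𝒯 Q x i = true) ⊂
          univ.filter (fun i => ans 𝒯 Q y i = true) := by
        refine Finset.ssubset_iff_subset_ne.mpr ⟨hsub, fun h => ha ?_⟩
        funext i
        have h1 : i ∈ univ.filter (fun i => ans 𝒯 Q x i = true) ↔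
          i ∈ univ.filter (fun i => ans 𝒯 Q y i = true) := by rw [h]
        simp only [Finset.mem_filter, Finset.mem_univ, true_and] at h1
        rw [Bool.eq_iff_iff]
        exact h1
      have hc := Finset.card_lt_card hss
      have h1 := pot_lt 𝒯 (next (ans 𝒯 Q x)) x
      have h2 := Finset.le_sup (f := fun a => cost (next a)) (Finset.mem_univ (ans 𝒯 Q x))
      have e1 : pot 𝒯 (ask w Q next) x = (univ.filter (fun i => ans 𝒯 Q x i = true)).card *
        (univ.sup fun a => cost (next a)) + pot 𝒯 (next (ans 𝒯 Q x)) x := rfl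
      have e2 : pot 𝒯 (ask w Q next) y = (univ.filter (fun i => ans 𝒯 Q y i = true)).card *
        (univ.sup fun a => cost (next a)) + pot 𝒯 (next (ans 𝒯 Q y)) y := rfl
      have h3 := Nat.mul_le_mul_right (univ.sup fun a => cost (next a)) (Nat.succ_le_of_lt hc)
      rw [Nat.succ_mul] at h3
      have h4 : pot 𝒯 (ask w Q next) x < pot 𝒯 (ask w Q next) y := by omega
      exact ⟨h4.le, fun _ => h4⟩

/-- The number of changes of the transcript along a chain. -/
theorem chain_lt (hm : Mono 𝒯) (p : Prog T) (x : ℕ → I → Bool) (M : ℕ)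
    (h : ∀ i < M, (∀ j, x i j = true → x (i + 1) j = true) ∧
      tr 𝒯 p (x i) ≠ tr 𝒯 p (x (i + 1))) : M < cost p := by
  have key : ∀ i ≤ M, i ≤ pot 𝒯 p (x i) := by
    intro i
    induction i with
    | zero => intro _; exact Nat.zero_le _
    | succ i ih =>
      intro hi
      obtain ⟨h1, h2⟩ := h i hi
      have := (pot_mono hm p h1).2 h2
      have := ih (by omega)
      omega
  exact lt_of_le_of_lt (key M le_rfl) (pot_lt 𝒯 p _)

/-- The flip lemma: if on a set of inputs above `x₀` all rejected inputs have the transcript of `x₀`,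
then on this set the computation is the OR of few tests. -/
theorem flip (hm : Mono 𝒯) : ∀ (p : Prog T) (x₀ : I → Bool) (D : Set (I → Bool)),
    (∀ x ∈ D, ∀ i, x₀ i = true → x i = true) →
    (∀ x ∈ D, ¬ Acc 𝒯 p x → tr 𝒯 p x = tr 𝒯 p x₀) →
    ∃ L : List T, (L.map 𝒯.size).sum ≤ load 𝒯 p ∧
      ∀ x ∈ D, (Acc 𝒯 p x ↔ ∃ P ∈ L, 𝒯.acc P x)
  | out P, x₀, D, _, _ => ⟨[P], by simp [load], fun x _ => by simp [Acc]⟩
  | ask w Q next, x₀, D, h1, h2 => by
    classical
    obtain ⟨a, ha⟩ : ∃ a, a = ans 𝒯 Q x₀ := ⟨_, rfl⟩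
    obtain ⟨L', l1, l2⟩ := flip hm (next a) x₀ {x | x ∈ D ∧ ans 𝒯 Q x = a}
      (fun x hx => h1 x hx.1) (fun x hx hrej => by
        have e1 : Acc 𝒯 (ask w Q next) x ↔ Acc 𝒯 (next a) x := by
          rw [← hx.2]; rfl
        have e2 := h2 x hx.1 (fun h => hrej (e1.mp h))
        have e3 : tr 𝒯 (ask w Q next) x = List.ofFn a :: tr 𝒯 (next a) x := by
          rw [← hx.2]; rfl
        have e4 : tr 𝒯 (ask w Q next) x₀ = List.ofFn a :: tr 𝒯 (next a) x₀ := by
          rw [ha]; rfl
        rw [e3, e4] at e2
        exact (List.cons.inj e2).2)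
    let L0 : List T := ((univ.filter (fun i => a i = false)).toList.map Q)
    refine ⟨L0 ++ L', ?_, fun x hx => ?_⟩
    · rw [List.map_append, List.sum_append]
      have e1 : (L0.map 𝒯.size).sum ≤ ∑ i, 𝒯.size (Q i) := by
        simp only [L0, List.map_map]
        rw [Finset.sum_map_toList]
        exact Finset.sum_le_sum_of_subset (Finset.filter_subset _ _)
      have e2 := Finset.le_sup (f := fun a => load 𝒯 (next a)) (Finset.mem_univ a)
      show (L0.map 𝒯.size).sum + (L'.map 𝒯.size).sum ≤
        ∑ i, 𝒯.size (Q i) + univ.sup fun a => load 𝒯 (next a)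
      omega
    · have hans : ∀ i, a i = true → ans 𝒯 Q x i = true := by
        intro i hi
        rw [ha] at hi
        exact ans_mono hm Q (h1 x hx) i hi
      have hL0 : (∃ P ∈ L0, 𝒯.acc P x) ↔ ans 𝒯 Q x ≠ a := by
        constructor
        · rintro ⟨P, hP, hx⟩ hcon
          simp only [L0, List.mem_map, Finset.mem_toList, Finset.mem_filter, Finset.mem_univ,
            true_and] at hP
          obtain ⟨i, hi, rfl⟩ := hP
          have : ans 𝒯 Q x i = true := (ans_iff Q x i).mpr hx
          rw [hcon, hi] at this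
          exact absurd this (by simp)
        · intro hne
          obtain ⟨i, hi⟩ := Function.ne_iff.mp hne
          have h3 : a i = false := by
            by_contra h
            rw [Bool.not_eq_false] at h
            exact hi (by rw [hans i h, h])
          have h4 : ans 𝒯 Q x i = true := by
            rw [h3] at hi
            simpa using hi
          refine ⟨Q i, ?_, ?_⟩
          · simp only [L0, List.mem_map, Finset.mem_toList, Finset.mem_filter, Finset.mem_univ,
              true_and]
            exact ⟨i, h3, rfl⟩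
          · exact (ans_iff Q x i).mp h4
      by_cases hxa : ans 𝒯 Q x = a
      · have e1 : Acc 𝒯 (ask w Q next) x ↔ Acc 𝒯 (next a) x := by
          rw [← hxa]; rfl
        rw [e1, l2 x ⟨hx, hxa⟩]
        constructor
        · rintro ⟨P, hP, h⟩
          exact ⟨P, List.mem_append_right _ hP, h⟩
        · rintro ⟨P, hP, h⟩
          rcases List.mem_append.mp hP with hP | hP
          · exact absurd hxa (hL0.mp ⟨P, hP, h⟩)
          · exact ⟨P, hP, h⟩
      · obtain ⟨P, hP, h⟩ := hL0.mpr hxa
        refine ⟨fun _ => ⟨P, List.mem_append_left _ hP, h⟩, fun _ => ?_⟩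
        by_contra hrej
        have e2 := h2 x hx hrej
        have e3 : tr 𝒯 (ask w Q next) x = List.ofFn (ans 𝒯 Q x) :: tr 𝒯 (next (ans 𝒯 Q x)) x :=
          rfl
        have e4 : tr 𝒯 (ask w Q next) x₀ = List.ofFn a :: tr 𝒯 (next a) x₀ := by
          rw [ha]; rfl
        rw [e3, e4] at e2
        exact hxa (List.ofFn_injective (List.cons.inj e2).1)

end Prog

end Pool.Agent.W953.SP
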