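import Mathlib
import Pool.Agent.W953.SP.Tree
import Pool.Agent.W953.PT.Neg

/-!
# The lower bound for computations in rounds of span programs
-/

set_option autoImplicit false

namespace Pool.Agent.W953.SP

open Finset Pool.Agent.H560R2 Pool.Agent.W953.PT

/-- union bound -/
lemma card_le_sum_list {X : Type} {T : Type*} [Fintype X] (p : T → X → Prop)
    [∀ S, DecidablePred (p S)] (L : List T) (U : Finset X) (h : ∀ x ∈ U, ∃ S ∈ L, p S x) :
    U.card ≤ (L.map (fun S => (univ.filter (p S)).card)).sum := by
  classical
  induction L generalizing U with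
  | nil =>
    have : U = ∅ := by
      rw [Finset.eq_empty_iff_forall_notMem]
      intro x hx
      obtain ⟨S, hS, -⟩ := h x hx
      exact absurd hS (by simp)
    rw [this]; simp
  | cons S L ih =>
    rw [List.map_cons, List.sum_cons]
    have h1 := ih (U.filter (fun x => ¬ p S x)) (by
      intro x hx
      rw [Finset.mem_filter] at hx
      obtain ⟨S', hS', hp⟩ := h x hx.1
      rcases List.mem_cons.mp hS' with rfl | hS'
      · exact absurd hp hx.2
      · exact ⟨S', hS', hp⟩)
    have h2 : (U.filter (fun x => p S x)).card ≤ (univ.filter (p S)).card :=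
      Finset.card_le_card (Finset.filter_subset_filter _ (Finset.subset_univ _))
    have h3 := Finset.card_filter_add_card_filter_not (s := U) (fun x => p S x)
    omega

/-- the tests: monotone span programs -/
def spTests (I : Type) : Tests (MSP I) I where
  acc := MSP.Acc
  size := MSP.size

lemma spTests_mono (I : Type) : Prog.Mono (spTests I) := fun _ _ _ hxy h => MSP.Acc.mono hxy h

section

variable {V : Type} [DecidableEq V] [Fintype V] {P : V → Finset V} {t : V} {d q : ℕ} {I : Type}

/-- A family of span programs (over various fields) that separates the positive inputs from the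
negative inputs is large. -/
theorem family_bound (hq : 1 ≤ q) (hP : ∀ v, v ∉ P v) (ht : ∀ S, Reach P d S → t ∉ S)
    (hn : d + 1 ≤ Fintype.card V) (α : (V → Fin q) → I → Bool)
    (β : (V → Fin q → Bool) → I → Bool)
    (hbase : ∀ i, (∃ r, (∀ x, α x i = pα P t q x r) ∧ ∀ y, β y i = pβ P t q y r) ∨
      ∃ c, (∀ x, α x i = c) ∧ ∀ y, β y i = c)
    (L : List (MSP I)) (hα : ∀ x, ∃ S ∈ L, S.Acc (α x)) (hβ : ∀ y, ∀ S ∈ L, ¬ S.Acc (β y)) :
    q ^ (d + 1) ≤ (L.map MSP.size).sum * (Fintype.card V).choose d := by
  classical
  obtain ⟨n, hnn⟩ : ∃ n, Fintype.card V = n := ⟨_, rfl⟩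
  set R : Finset (Finset V) := Finset.univ.filter (fun S => Reach P d S) with hR
  have hR0 : ∅ ∈ R := Finset.mem_filter.mpr ⟨Finset.mem_univ _, Reach.nil⟩
  have hRc : ∀ S ∈ R, S.card ≤ d := fun S hS => (Finset.mem_filter.mp hS).2.card
  have hRi : ∀ v, ∀ S ∈ R, P v ⊆ S → v ∉ S → S.card < d → insert v S ∈ R := by
    intro v S hS hPS hv hlt
    refine Finset.mem_filter.mpr ⟨Finset.mem_univ _, Reach.ins S v (Finset.mem_filter.mp hS).2 hPS ?_⟩
    rw [Finset.card_insert_of_notMem hv]
    exact hlt
  have hRe : ∀ v, ∀ S ∈ R, P v ⊆ S → v ∈ S → S.erase v ∈ R := fun v S hS _ _ =>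
    Finset.mem_filter.mpr ⟨Finset.mem_univ _, Reach.ers S v (Finset.mem_filter.mp hS).2⟩
  have hRt : ∀ S ∈ R, t ∉ S := fun S hS => ht S (Finset.mem_filter.mp hS).2
  obtain ⟨r, hr⟩ : ∃ r, r = n.choose d * q ^ (n - (d + 1)) := ⟨_, rfl⟩
  have hone : ∀ S ∈ L, (univ.filter (fun x => S.Acc (α x))).card ≤ S.size * r := by
    intro S hS
    refine (card_le_rank (amat S.F q R) (phi S.F q V) (amat_phi R hR0) _).trans ?_
    refine S.rank_le (amat S.F q R) α β _ (fun x hx => hx) (fun y => hβ y S hS) r ?_
    intro i
    rcases hbase i with ⟨⟨v, ρ⟩ | c, h1, h2⟩ | ⟨c, h1, h2⟩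
    · have := mask_rank (F := S.F) (q := q) R d (P v) v (hP v) hRc (hRi v) (hRe v)
          (fun x => α x i = true)
          (fun y => β y i = false) (by
            intro x y hx hy
            rw [h1] at hx
            rw [h2] at hy
            simp only [pα, decide_eq_true_eq] at hx
            simp only [pβ, decide_eq_false_iff_not, not_not] at hy
            refine ⟨fun i hi => ?_, ?_⟩
            · have := hx ⟨i, Finset.mem_insert_of_mem hi⟩
              simp only at this
              rw [this]
              exact hy.1 i hi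
            · have := hx ⟨v, Finset.mem_insert_self _ _⟩
              simp only at this
              rw [this]
              exact hy.2)
      rw [hnn, ← hr] at this
      exact this
    · have := mask_sink (F := S.F) (q := q) R t hRt (fun x => α x i = true)
          (fun y => β y i = false) (by
            intro x y hx hy
            rw [h1] at hx
            rw [h2] at hy
            simp only [pα, decide_eq_true_eq] at hx
            simp only [pβ, Bool.not_eq_false'] at hy
            rw [hx]
            exact hy)
      rw [this]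
      exact Nat.zero_le _
    · have : mask (amat S.F q R) (fun x => α x i = true) (fun y => β y i = false) = 0 := by
        ext x y
        simp only [mask, Matrix.of_apply, Matrix.zero_apply]
        rw [if_neg]
        rintro ⟨h3, h4⟩
        rw [h1] at h3
        rw [h2, h3] at h4
        exact absurd h4 (by simp)
      rw [this, Matrix.rank_zero]
      exact Nat.zero_le _
  have h1 := card_le_sum_list (fun (S : MSP I) x => S.Acc (α x)) L univ (fun x _ => hα x)
  have h2 : (L.map (fun S => (univ.filter (fun x => S.Acc (α x))).card)).sum ≤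
      (L.map MSP.size).sum * r := by
    rw [← List.sum_map_mul_right]
    exact List.sum_le_sum (fun S hS => hone S hS)
  have h3 : q ^ n ≤ (L.map MSP.size).sum * r := by
    have h4 := h1.trans h2
    rw [Finset.card_univ, Fintype.card_fun, Fintype.card_fin, hnn] at h4
    exact h4
  rw [hnn] at hn ⊢
  rw [hr] at h3
  have hsplit : q ^ n = q ^ (n - (d + 1)) * q ^ (d + 1) := by
    rw [← pow_add]; congr 1; omega
  rw [hsplit] at h3
  have e : (L.map MSP.size).sum * (n.choose d * q ^ (n - (d + 1))) =
      q ^ (n - (d + 1)) * ((L.map MSP.size).sum * n.choose d) := by ring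
  rw [e] at h3
  exact Nat.le_of_mul_le_mul_left h3 (by positivity)

/-- Many copies need many rounds. -/
theorem copies_lt (lvl : V → ℕ) (hlvl : ∀ v, ∀ u ∈ P v, lvl u < lvl v) (hq : 1 ≤ q)
    (ht : ∀ S, Reach P d S → t ∉ S) (hn : d + 1 ≤ Fintype.card V) {M : ℕ}
    (emb : (Fin M → PVar P q → Bool) → I → Bool)
    (hemb : ∀ i, (∃ J r, ∀ Y, emb Y i = Y J r) ∨ ∃ c, ∀ Y, emb Y i = c)
    (p : Prog (MSP I))
    (hp : ∀ Y, p.Acc (spTests I) (emb Y) ↔ ∃ J, pebF P t q (Y J))
    (hload : p.load (spTests I) * (Fintype.card V).choose d < q ^ (d + 1)) : M < p.cost := by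
  classical
  have hPv : ∀ v, v ∉ P v := fun v hv => lt_irrefl _ (hlvl v v hv)
  have hz0 : ¬ pebF P t q (fun _ => false) := by
    rintro ⟨c, h, -⟩
    exact absurd h (by simp)
  -- monotonicity of the embedding
  have hmono : ∀ (y : Fin M → PVar P q → Bool) (J : Fin M) (X : PVar P q → Bool),
      y J = (fun _ => false) → ∀ i, emb y i = true → emb (Function.update y J X) i = true := by
    intro y J X hyJ i hi
    rcases hemb i with ⟨J', r, h⟩ | ⟨c, h⟩
    · rw [h] at hi ⊢
      by_cases hJ : J' = J
      · subst hJ
        rw [hyJ] at hi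
        exact absurd hi (by simp)
      · rw [Function.update_of_ne hJ]
        exact hi
    · rw [h] at hi ⊢
      exact hi
  obtain ⟨Y, h1, h2, h3⟩ := chain_core (κ := Fin M) (m := M)
    (fun X => ¬ pebF P t q X) (fun _ => false) hz0 id (fun _ _ h => h)
    (fun Y => p.tr (spTests I) (emb Y)) (by
      intro y J hy hyJ
      by_contra hcon
      push Not at hcon
      obtain ⟨L, hL1, hL2⟩ := Prog.flip (spTests_mono I) p (emb y)
        {x | ∃ X, x = emb (Function.update y J X)} (by
          rintro _ ⟨X, rfl⟩
          exact hmono y J X hyJ) (by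
          rintro _ ⟨X, rfl⟩ hrej
          have hX : ¬ pebF P t q X := by
            intro hX
            exact hrej ((hp _).mpr ⟨J, by rwa [Function.update_self]⟩)
          exact hcon X hX)
      have hiff : ∀ X, (∃ S ∈ L, S.Acc (emb (Function.update y J X))) ↔ pebF P t q X := by
        intro X
        have h4 : (∃ S ∈ L, S.Acc (emb (Function.update y J X))) ↔
            ∃ S ∈ L, (spTests I).acc S (emb (Function.update y J X)) := Iff.rfl
        rw [h4, ← hL2 _ ⟨X, rfl⟩, hp]
        constructor
        · rintro ⟨J', hJ'⟩
          by_cases hJ : J' = J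
          · subst hJ
            rwa [Function.update_self] at hJ'
          · rw [Function.update_of_ne hJ] at hJ'
            exact absurd hJ' (hy J')
        · intro hX
          exact ⟨J, by rwa [Function.update_self]⟩
      have h5 := family_bound hq hPv ht hn (fun x => emb (Function.update y J (pα P t q x)))
        (fun y' => emb (Function.update y J (pβ P t q y'))) (by
          intro i
          rcases hemb i with ⟨J', r, h⟩ | ⟨c, h⟩
          · by_cases hJ : J' = J
            · subst hJ
              left
              refine ⟨r, fun x => ?_, fun x => ?_⟩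
              · rw [h, Function.update_self]
              · rw [h, Function.update_self]
            · right
              refine ⟨y J' r, fun x => ?_, fun x => ?_⟩
              · rw [h, Function.update_of_ne hJ]
              · rw [h, Function.update_of_ne hJ]
          · exact Or.inr ⟨c, fun x => h _, fun x => h _⟩) L
        (fun x => (hiff _).mpr (peb_pos lvl hlvl x))
        (fun y' S hS hacc => peb_neg y' ((hiff _).mp ⟨S, hS, hacc⟩))
      have h6 : (L.map MSP.size).sum * (Fintype.card V).choose d ≤
          p.load (spTests I) * (Fintype.card V).choose d := Nat.mul_le_mul_right _ hL1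
      omega)
  refine Prog.chain_lt (spTests_mono I) p (fun i => emb (Y i)) M (fun i hi => ⟨?_, h2 i hi⟩)
  obtain ⟨J, X, hJ, hX⟩ := h1 i hi
  show ∀ j, emb (Y i) j = true → emb (Y (i + 1)) j = true
  rw [hX]
  exact hmono (Y i) J X hJ

end

end Pool.Agent.W953.SP
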