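import Mathlib
import Pool.Agent.W953.SP.Core
import Pool.Agent.W953.PT.Slices

/-!
# The hard functions
-/

set_option autoImplicit false

namespace Pool.Agent.W953.SP

open Finset Pool.Agent.H540R2 Pool.Agent.H540R2.Circuit Pool.Agent.W953.NW Pool.Agent.H560R2
  Pool.Agent.W953.PT

/-- the circuit of a program -/
theorem toCirc {N g : ℕ} {f : (Fin N → Bool) → Bool} (b : Fin g → Bool)
    (l r : Fin g → Fin N ⊕ Fin g) (v : (Fin N → Bool) → Fin g → Bool) (o : Fin g)
    (htop : ∀ i k, l i = Sum.inr k ∨ r i = Sum.inr k → k < i)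
    (hv : ∀ x i, v x i = if b i = true
          then (Sum.elim x (v x) (l i) && Sum.elim x (v x) (r i))
          else (Sum.elim x (v x) (l i) || Sum.elim x (v x) (r i)))
    (hvo : ∀ x, v x o = f x) :
    ∃ C : Circuit N, C.Monotone ∧ C.size = g ∧ ∀ x, C.eval x = f x := by
  classical
  -- the monotone circuit
  set nd : Fin N ⊕ Fin g → Node N := fun a => Sum.elim (fun i => .var i) (fun k => .gate k.val) a
    with hnd
  set C : Circuit N :=
    { size := g
      gate := fun i => if h : i < g then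
          (if b ⟨i, h⟩ = true then .and (nd (l ⟨i, h⟩)) (nd (r ⟨i, h⟩)) else
            .or (nd (l ⟨i, h⟩)) (nd (r ⟨i, h⟩))) else .and (.const true) (.const true)
      out := .gate o.val
      gate_lt := by
        intro i hi j hj
        rw [dif_pos hi] at hj
        have hw : ∀ a : Fin N ⊕ Fin g, (nd a).wires j ≠ 0 → ∃ k : Fin g, a = Sum.inr k ∧
            k.val = j := by
          intro a ha
          rcases a with i' | k
          · exact absurd rfl ha
          · refine ⟨k, rfl, ?_⟩
            simp only [hnd, Sum.elim_inr, Node.wires] at ha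
            by_contra hne
            exact ha (if_neg hne)
        have hcase : (nd (l ⟨i, hi⟩)).wires j ≠ 0 ∨ (nd (r ⟨i, hi⟩)).wires j ≠ 0 := by
          split_ifs at hj
          · exact add_ne_zero_cases hj
          · exact add_ne_zero_cases hj
        rcases hcase with h | h
        · obtain ⟨k, hk1, hk2⟩ := hw _ h
          have := htop ⟨i, hi⟩ k (Or.inl hk1)
          rw [← hk2]
          exact this
        · obtain ⟨k, hk1, hk2⟩ := hw _ h
          have := htop ⟨i, hi⟩ k (Or.inr hk1)
          rw [← hk2]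
          exact this
      out_lt := by
        intro j hj
        simp only [Node.wires] at hj
        by_cases h : o.val = j
        · rw [← h]; exact o.isLt
        · exact absurd (if_neg h) hj } with hC
  have hCval : ∀ x, ∀ i : Fin g, C.val x i.val = v x i := by
    intro x i
    obtain ⟨i, hi⟩ := i
    induction i using Nat.strong_induction_on with
    | _ i ih =>
      rw [C.val_gate (show i < C.size from hi), hv]
      have hgate : C.gate i = if b ⟨i, hi⟩ = true then .and (nd (l ⟨i, hi⟩)) (nd (r ⟨i, hi⟩)) else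
            .or (nd (l ⟨i, hi⟩)) (nd (r ⟨i, hi⟩)) := dif_pos hi
      have hnode : ∀ a : Fin N ⊕ Fin g, (∀ k, a = Sum.inr k → k < ⟨i, hi⟩) →
          (nd a).eval x (C.val x) = Sum.elim x (v x) a := by
        intro a ha
        rcases a with i' | k
        · rfl
        · exact ih k.val (ha k rfl) k.isLt
      have h1 := hnode (l ⟨i, hi⟩) (fun k hk => htop ⟨i, hi⟩ k (Or.inl hk))
      have h2 := hnode (r ⟨i, hi⟩) (fun k hk => htop ⟨i, hi⟩ k (Or.inr hk))
      rw [hgate]
      by_cases hb : b ⟨i, hi⟩ = true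
      · rw [if_pos hb, if_pos hb]
        simp only [Gate.eval]
        rw [h1, h2]
      · rw [if_neg hb, if_neg hb]
        simp only [Gate.eval]
        rw [h1, h2]
  have hCf : ∀ x, C.eval x = f x := by
    intro x
    rw [← hvo x]
    exact hCval x o
  refine ⟨C, ?_, rfl, hCf⟩
  · intro i hi a h
    have hgate : C.gate i = if b ⟨i, hi⟩ = true then .and (nd (l ⟨i, hi⟩)) (nd (r ⟨i, hi⟩)) else
            .or (nd (l ⟨i, hi⟩)) (nd (r ⟨i, hi⟩)) := dif_pos hi
    rw [hgate] at h
    split_ifs at h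

/-- the number of elements of the path systems that are needed -/
def gno (D : ℕ) : ℕ := 2 ^ 19 * (D + 1) * (Nat.log 2 (D + 1) + 6) ^ 4

lemma gno_pos (D : ℕ) : 0 < gno D := by unfold gno; positivity

/-- The graph and the alphabet. -/
theorem exists_gadget (D : ℕ) : ∃ (V : Type) (_ : DecidableEq V) (_ : Fintype V)
    (P : V → Finset V) (t : V) (lvl : V → ℕ) (d q : ℕ), 1 ≤ q ∧ (∀ v, (P v).card ≤ 2) ∧
    (∀ v, ∀ u ∈ P v, lvl u < lvl v) ∧ (∀ S, Reach P d S → t ∉ S) ∧ d + 1 ≤ Fintype.card V ∧
    Fintype.card V * q ^ 3 + q ≤ vno D ∧ Fintype.card V * q ≤ gno D ∧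
    ∀ s < 4 ^ (D + 1), s * (Fintype.card V).choose d < q ^ (d + 1) := by
  classical
  obtain ⟨k, hk⟩ : ∃ k, k = Nat.clog 2 (D + 1) := ⟨_, rfl⟩
  have hk1 : D + 1 ≤ 2 ^ k := by rw [hk]; exact Nat.le_pow_clog (by norm_num) _
  have hk2 : 2 ^ k ≤ 2 * (D + 1) := by
    rw [hk]
    rcases Nat.eq_zero_or_pos D with h | h
    · subst h; simp
    · have := Nat.pow_pred_clog_lt_self (b := 2) (by norm_num) (x := D + 1) (by omega)
      have h2 : 1 ≤ Nat.clog 2 (D + 1) := Nat.clog_pos (by norm_num) (by omega)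
      obtain ⟨c, hc⟩ : ∃ c, Nat.clog 2 (D + 1) = c + 1 := ⟨Nat.clog 2 (D + 1) - 1, by omega⟩
      rw [hc] at this ⊢
      simp only [Nat.pred_eq_sub_one, Nat.add_sub_cancel] at this
      rw [pow_succ]
      omega
  have hk3 : k ≤ Nat.log 2 (D + 1) + 1 := by
    have h1 : D + 1 < 2 ^ (Nat.log 2 (D + 1) + 1) := Nat.lt_pow_succ_log_self (by norm_num) _
    rw [hk]
    exact Nat.clog_le_of_le_pow h1.le
  obtain ⟨V, dV, fV, P, t, lvl, h1, h2, h3, h4, h5⟩ := exists_hard k
  obtain ⟨u, hu⟩ : ∃ u, u = 128 * (k + 5) ^ 2 := ⟨_, rfl⟩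
  have hu1 : 1 ≤ u := by rw [hu]; exact Nat.mul_pos (by norm_num) (by positivity)
  have hcV : Fintype.card V ≤ 2 ^ k * u := by
    rw [hu]
    calc Fintype.card V ≤ 128 * 2 ^ k * (k + 5) ^ 2 := h3
      _ = 2 ^ k * (128 * (k + 5) ^ 2) := by ring
  have hd : 2 ^ k - 1 + 1 = 2 ^ k := by
    have : 1 ≤ 2 ^ k := Nat.one_le_two_pow
    omega
  refine ⟨V, dV, fV, P, t, lvl, 2 ^ k - 1, 16 * u, by omega, h1, h2, h5, by rw [hd]; exact h4,
    ?_, ?_, ?_⟩
  · refine (num_aux Nat.one_le_two_pow hcV).trans ?_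
    calc 4112 * (2 ^ k * u ^ 4) = (4112 * 2 ^ 28) * (2 ^ k * (k + 5) ^ 8) := by rw [hu]; ring
      _ ≤ 2 ^ 41 * (2 * (D + 1) * (Nat.log 2 (D + 1) + 6) ^ 8) := by
        refine Nat.mul_le_mul (by norm_num) (Nat.mul_le_mul hk2 (Nat.pow_le_pow_left ?_ 8))
        omega
      _ = vno D := by unfold vno; ring
  · calc Fintype.card V * (16 * u) ≤ (2 ^ k * u) * (16 * u) := Nat.mul_le_mul_right _ hcV
      _ = 2 ^ 18 * (2 ^ k * (k + 5) ^ 4) := by rw [hu]; ring
      _ ≤ 2 ^ 18 * (2 * (D + 1) * (Nat.log 2 (D + 1) + 6) ^ 4) := by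
        refine Nat.mul_le_mul le_rfl (Nat.mul_le_mul hk2 (Nat.pow_le_pow_left ?_ 4))
        omega
      _ = gno D := by unfold gno; ring
  · intro s hs
    have e1 : (Fintype.card V).choose (2 ^ k - 1) ≤ (4 * u) ^ (2 ^ k - 1) :=
      choose_bound (by rw [hd]; exact hcV)
    calc s * (Fintype.card V).choose (2 ^ k - 1) ≤ s * (4 * u) ^ (2 ^ k - 1) :=
          Nat.mul_le_mul_left _ e1
      _ < 4 ^ (D + 1) * (4 * u) ^ (2 ^ k - 1) :=
          Nat.mul_lt_mul_of_pos_right hs (by positivity)
      _ ≤ 4 ^ (2 ^ k - 1 + 1) * (4 * u) ^ (2 ^ k - 1 + 1) := by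
          refine Nat.mul_le_mul (Nat.pow_le_pow_right (by norm_num) (by omega))
            (Nat.pow_le_pow_right (by omega) (by omega))
      _ = (16 * u) ^ (2 ^ k - 1 + 1) := by rw [← mul_pow]; congr 1; ring

/-- the coordinates of a filled input -/
lemma fill_cases {κ R I : Type} (e : κ × R → I) (i : I) :
    (∃ J r, ∀ Y, fill e Y i = Y J r) ∨ ∃ c, ∀ Y, fill e Y i = c := by
  classical
  by_cases h : ∃ r, e r = i
  · left
    refine ⟨h.choose.1, h.choose.2, fun Y => ?_⟩
    unfold fill
    rw [dif_pos h]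
  · right
    refine ⟨false, fun Y => ?_⟩
    unfold fill
    rw [dif_neg h]

/-- The lower bound for functions with small circuits, on slices. -/
theorem hard_circ (D M r U : ℕ) (hM : 1 ≤ M) (hU : U = M * vno D) :
    ∃ C : Circuit (U + r), C.Monotone ∧ C.size ≤ 3 * U ∧
      ∀ k ≤ r, ∀ p : Prog (MSP (Fin (U + r))), p.cost ≤ M → p.load (spTests _) < 4 ^ (D + 1) →
        ∃ x, k ≤ wt x ∧ wt x ≤ k + U ∧ ¬ (p.Acc (spTests _) x ↔ C.eval x = true) := by
  classical
  obtain ⟨V, dV, fV, P, t, lvl, d, q, hq, h1, h2, h3, h4, h5, -, h6⟩ := exists_gadget D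
  have hcard : Fintype.card (Fin M × PVar P q) ≤ Fintype.card (Fin U) := by
    rw [Fintype.card_prod, Fintype.card_fin, Fintype.card_fin, hU]
    exact Nat.mul_le_mul_left M ((card_pvar' h1 hq).trans h5)
  obtain ⟨e⟩ := Function.Embedding.nonempty_of_card_le hcard
  have hC0 : ∃ C0 : Circuit U, C0.Monotone ∧ C0.size ≤ 3 * U ∧
      ∀ x, C0.eval x = orPeb P t q M e x := by
    obtain ⟨L, hL, hlen, hav⟩ := orPeb_prog (t := t) hq h1 lvl h2 M hM e
    have hlen2 : L.length + 1 ≤ 3 * U := by
      have e1 : 3 * Fintype.card V * q ^ 3 + 2 * q + 1 ≤ 3 * vno D := by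
        have : 3 * Fintype.card V * q ^ 3 = 3 * (Fintype.card V * q ^ 3) := by ring
        omega
      have e2 : M * (3 * Fintype.card V * q ^ 3 + 2 * q) + M ≤ 3 * (M * vno D) := by
        calc M * (3 * Fintype.card V * q ^ 3 + 2 * q) + M =
            M * (3 * Fintype.card V * q ^ 3 + 2 * q + 1) := by ring
          _ ≤ M * (3 * vno D) := Nat.mul_le_mul_left _ e1
          _ = 3 * (M * vno D) := by ring
      rw [← hU] at e2
      omega
    rcases hav with ⟨p, hp⟩ | hmem
    · obtain ⟨C, c1, c2, c3⟩ := toCirc (f := orPeb P t q M e) (g := 1) (fun _ => true)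
        (fun _ => Sum.inl p) (fun _ => Sum.inl p) (fun x _ => x p) 0
        (by
          intro i k hk
          rcases hk with hk | hk <;> exact absurd hk (by simp))
        (by
          intro x i
          simp)
        (by
          intro x
          rw [hp])
      exact ⟨C, c1, by omega, c3⟩
    · obtain ⟨b, l, r, v, o, h1, h2, h3⟩ := prog_circuit hL _ hmem
      obtain ⟨C, c1, c2, c3⟩ := toCirc b l r v o h1 h2 h3
      exact ⟨C, c1, by omega, c3⟩
  obtain ⟨C0, c1, c2, c3⟩ := hC0
  refine ⟨ren (Fin.castAdd r) C0, ?_, c2, fun k hk p hcost hload => ?_⟩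
  · intro i hi a h
    have hg : (ren (Fin.castAdd r) C0).gate i = renG (Fin.castAdd r) (C0.gate i) := rfl
    rw [hg] at h
    have := c1 i hi
    cases hc : C0.gate i with
    | and a b => rw [hc] at h; simp [renG] at h
    | or a b => rw [hc] at h; simp [renG] at h
    | not a => exact this a hc
  · by_contra hcon
    push Not at hcon
    have hren : ∀ y : Fin U → Bool, (ren (Fin.castAdd r) C0).eval (PT.ext (r := r) k y) =
        C0.eval y := by
      intro y
      apply ren_eval
      intro i _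
      simp only [PT.ext, Fin.append_left]
    have hlt := copies_lt lvl h2 hq h3 h4 (M := M)
      (fun Y => PT.ext (r := r) k (fill e Y)) (by
        intro i
        refine Fin.addCases (fun j => ?_) (fun j => ?_) i
        · simp only [PT.ext, Fin.append_left]
          exact fill_cases e j
        · right
          exact ⟨decide (j.val < k), fun Y => by simp only [PT.ext, Fin.append_right]⟩) p (by
        intro Y
        have hw := wt_ext (r := r) hk (fill e Y)
        have hy := wt_le (fill e Y)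
        rw [hcon (PT.ext (r := r) k (fill e Y)) (by omega) (by omega), hren, c3]
        have e1 : orPeb P t q M e (fill e Y) = true ↔
            ∃ J, pebF P t q (fun r => fill e Y (e (J, r))) := by
          unfold orPeb
          exact decide_eq_true_iff
        rw [e1]
        refine exists_congr fun J => ?_
        have : (fun r => fill e Y (e (J, r))) = Y J := by
          funext r
          exact fill_apply e e.injective Y (J, r)
        rw [this]) (h6 _ hload)
    omega

end Pool.Agent.W953.SP
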