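import Mathlib
import Pool.Agent.W953.SP.Hard

/-!
# Path systems
-/

set_option autoImplicit false

namespace Pool.Agent.W953.SP

open Finset Pool.Agent.H560R2 Pool.Agent.W953.PT

/-- The possible axioms `ax x` and rules `rl x y z` (from `x` and `y` derive `z`) of a path system
on `E`. A path system is a function `PS E → Bool`. -/
inductive PS (E : Type) : Type
  | ax (x : E) : PS E
  | rl (x y z : E) : PS E

/-- the elements that are derivable in a path system -/
inductive Solv {E : Type} (v : PS E → Bool) : E → Prop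
  | ax (x : E) : v (.ax x) = true → Solv v x
  | rl (x y z : E) : v (.rl x y z) = true → Solv v x → Solv v y → Solv v z

section

variable {V : Type} [DecidableEq V] {P : V → Finset V} {t : V} {q M : ℕ} {E : Type}

lemma exists_pair (hP2 : ∀ v, (P v).card ≤ 2) (v : V) (h : (P v).Nonempty) :
    ∃ a b : V, a ∈ P v ∧ b ∈ P v ∧ ∀ w ∈ P v, w = a ∨ w = b := by
  obtain ⟨a, ha⟩ := h
  by_cases h2 : ∃ b ∈ P v, b ≠ a
  · obtain ⟨b, hb, hba⟩ := h2
    refine ⟨a, b, ha, hb, fun w hw => ?_⟩
    by_contra hcon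
    push Not at hcon
    have h3 : ({w, a, b} : Finset V) ⊆ P v := by
      intro z hz
      simp only [Finset.mem_insert, Finset.mem_singleton] at hz
      rcases hz with rfl | rfl | rfl
      · exact hw
      · exact ha
      · exact hb
    have h4 : ({w, a, b} : Finset V).card = 3 := by
      rw [Finset.card_insert_of_notMem, Finset.card_insert_of_notMem, Finset.card_singleton]
      · simpa using hba.symm
      · simp only [Finset.mem_insert, Finset.mem_singleton, not_or]
        exact hcon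
    have h5 := Finset.card_le_card h3
    have := hP2 v
    omega
  · push Not at h2
    exact ⟨a, a, ha, ha, fun w hw => Or.inl (h2 w hw)⟩

/-- first predecessor -/
noncomputable def pa (hP2 : ∀ v, (P v).card ≤ 2) (v : V) (h : (P v).Nonempty) : V :=
  (exists_pair hP2 v h).choose

/-- second predecessor -/
noncomputable def pb (hP2 : ∀ v, (P v).card ≤ 2) (v : V) (h : (P v).Nonempty) : V :=
  (exists_pair hP2 v h).choose_spec.choose

lemma pa_mem (hP2 : ∀ v, (P v).card ≤ 2) (v : V) (h : (P v).Nonempty) : pa hP2 v h ∈ P v :=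
  (exists_pair hP2 v h).choose_spec.choose_spec.1

lemma pb_mem (hP2 : ∀ v, (P v).card ≤ 2) (v : V) (h : (P v).Nonempty) : pb hP2 v h ∈ P v :=
  (exists_pair hP2 v h).choose_spec.choose_spec.2.1

lemma pab (hP2 : ∀ v, (P v).card ≤ 2) (v : V) (h : (P v).Nonempty) :
    ∀ w ∈ P v, w = pa hP2 v h ∨ w = pb hP2 v h :=
  (exists_pair hP2 v h).choose_spec.choose_spec.2.2

open Classical in
/-- the variables as axioms and rules -/
noncomputable def code (hP2 : ∀ v, (P v).card ≤ 2) (t : V) (g : E)
    (ι : Fin M × V × Fin q → E) : Fin M × PVar P q → PS E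
  | (J, Sum.inl ⟨v, ρ⟩) => if h : (P v).Nonempty then
      .rl (ι (J, pa hP2 v h, ρ ⟨_, Finset.mem_insert_of_mem (pa_mem hP2 v h)⟩))
        (ι (J, pb hP2 v h, ρ ⟨_, Finset.mem_insert_of_mem (pb_mem hP2 v h)⟩))
        (ι (J, v, ρ ⟨v, Finset.mem_insert_self _ _⟩))
      else .ax (ι (J, v, ρ ⟨v, Finset.mem_insert_self _ _⟩))
  | (J, Sum.inr c) => .rl (ι (J, t, c)) (ι (J, t, c)) g

variable (hP2 : ∀ v, (P v).card ≤ 2) (g : E) (ι : Fin M × V × Fin q → E)

lemma code_rl (J : Fin M) (v : V) (ρ : {i // i ∈ insert v (P v)} → Fin q) (h : (P v).Nonempty) :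
    code hP2 t g ι (J, Sum.inl ⟨v, ρ⟩) =
      .rl (ι (J, pa hP2 v h, ρ ⟨_, Finset.mem_insert_of_mem (pa_mem hP2 v h)⟩))
        (ι (J, pb hP2 v h, ρ ⟨_, Finset.mem_insert_of_mem (pb_mem hP2 v h)⟩))
        (ι (J, v, ρ ⟨v, Finset.mem_insert_self _ _⟩)) := by
  unfold code
  simp only
  rw [dif_pos h]

lemma code_ax (J : Fin M) (v : V) (ρ : {i // i ∈ insert v (P v)} → Fin q)
    (h : ¬ (P v).Nonempty) : code hP2 t g ι (J, Sum.inl ⟨v, ρ⟩) =
      .ax (ι (J, v, ρ ⟨v, Finset.mem_insert_self _ _⟩)) := by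
  unfold code
  simp only
  rw [dif_neg h]

lemma code_sink (J : Fin M) (c : Fin q) : code hP2 t g ι (J, Sum.inr c) =
      .rl (ι (J, t, c)) (ι (J, t, c)) g := rfl

variable {ι}

lemma code_inj (hι : Function.Injective ι) (hg : ∀ a, ι a ≠ g) :
    Function.Injective (code hP2 t g ι) := by
  rintro ⟨J, ⟨v, ρ⟩ | c⟩ ⟨J', ⟨v', ρ'⟩ | c'⟩ hcode
  · by_cases h : (P v).Nonempty
    · by_cases h' : (P v').Nonempty
      · rw [code_rl hP2 g ι J v ρ h, code_rl hP2 g ι J' v' ρ' h'] at hcode
        injection hcode with e1 e2 e3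
        have e3' := hι e3
        obtain ⟨rfl, e4⟩ := Prod.mk.inj e3'
        obtain ⟨rfl, e5⟩ := Prod.mk.inj e4
        have e1' := (Prod.mk.inj (Prod.mk.inj (hι e1)).2).2
        have e2' := (Prod.mk.inj (Prod.mk.inj (hι e2)).2).2
        have hρ : ρ = ρ' := by
          funext ⟨u, hu⟩
          rcases Finset.mem_insert.mp hu with rfl | hu'
          · exact e5
          · rcases pab hP2 v h u hu' with rfl | rfl
            · exact e1'
            · exact e2'
        rw [hρ]
      · rw [code_rl hP2 g ι J v ρ h, code_ax hP2 g ι J' v' ρ' h'] at hcode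
        exact absurd hcode (by simp)
    · by_cases h' : (P v').Nonempty
      · rw [code_ax hP2 g ι J v ρ h, code_rl hP2 g ι J' v' ρ' h'] at hcode
        exact absurd hcode (by simp)
      · rw [code_ax hP2 g ι J v ρ h, code_ax hP2 g ι J' v' ρ' h'] at hcode
        injection hcode with e3
        have e3' := hι e3
        obtain ⟨rfl, e4⟩ := Prod.mk.inj e3'
        obtain ⟨rfl, e5⟩ := Prod.mk.inj e4
        have hρ : ρ = ρ' := by
          funext ⟨u, hu⟩
          rcases Finset.mem_insert.mp hu with rfl | hu'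
          · exact e5
          · exact absurd ⟨u, hu'⟩ h
        rw [hρ]
  · by_cases h : (P v).Nonempty
    · rw [code_rl hP2 g ι J v ρ h, code_sink] at hcode
      injection hcode with e1 e2 e3
      exact absurd e3 (hg _)
    · rw [code_ax hP2 g ι J v ρ h, code_sink] at hcode
      exact absurd hcode (by simp)
  · by_cases h : (P v').Nonempty
    · rw [code_rl hP2 g ι J' v' ρ' h, code_sink] at hcode
      injection hcode with e1 e2 e3
      exact absurd e3.symm (hg _)
    · rw [code_ax hP2 g ι J' v' ρ' h, code_sink] at hcode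
      exact absurd hcode (by simp)
  · rw [code_sink, code_sink] at hcode
    injection hcode with e1 e2 e3
    have e4 := hι e1
    obtain ⟨rfl, e5⟩ := Prod.mk.inj e4
    obtain ⟨-, rfl⟩ := Prod.mk.inj e5
    rfl

/-- inversion -/
lemma fill_true (hι : Function.Injective ι) (hg : ∀ a, ι a ≠ g) (Y : Fin M → PVar P q → Bool)
    (i : PS E) (h : fill (code hP2 t g ι) Y i = true) :
    ∃ J r, code hP2 t g ι (J, r) = i ∧ Y J r = true := by
  classical
  by_cases h2 : ∃ r, code hP2 t g ι r = i
  · obtain ⟨⟨J, r⟩, rfl⟩ := h2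
    rw [fill_apply _ (code_inj hP2 g hι hg)] at h
    exact ⟨J, r, rfl, h⟩
  · unfold fill at h
    rw [dif_neg h2] at h
    exact absurd h (by simp)

lemma solv_of_der (hι : Function.Injective ι) (hg : ∀ a, ι a ≠ g)
    (Y : Fin M → PVar P q → Bool) (J : Fin M) (v : V) (c : Fin q) (h : Der P q (Y J) v c) :
    Solv (fill (code hP2 t g ι) Y) (ι (J, v, c)) := by
  have hfl := fill_apply (code hP2 t g ι) (code_inj hP2 g hι hg) Y
  induction h with
  | mk v ρ hX hP ih =>
    by_cases h : (P v).Nonempty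
    · refine Solv.rl _ _ _ ?_ (ih _ (pa_mem hP2 v h)) (ih _ (pb_mem hP2 v h))
      rw [← code_rl hP2 g ι J v ρ h, hfl]
      exact hX
    · refine Solv.ax _ ?_
      rw [← code_ax (t := t) hP2 g ι J v ρ h, hfl]
      exact hX

lemma der_of_solv (hι : Function.Injective ι) (hg : ∀ a, ι a ≠ g)
    (Y : Fin M → PVar P q → Bool) (e : E) (h : Solv (fill (code hP2 t g ι) Y) e) :
    (∀ J v c, e = ι (J, v, c) → Der P q (Y J) v c) ∧ (e = g → ∃ J, pebF P t q (Y J)) := by
  induction h with
  | ax x hx =>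
    obtain ⟨J', r, hc, hY⟩ := fill_true hP2 g hι hg Y _ hx
    rcases r with ⟨v', ρ⟩ | c
    · by_cases h : (P v').Nonempty
      · rw [code_rl hP2 g ι J' v' ρ h] at hc
        exact absurd hc (by simp)
      · rw [code_ax hP2 g ι J' v' ρ h] at hc
        injection hc with e1
        refine ⟨fun J v c he => ?_, fun he => absurd (e1.trans he) (hg _)⟩
        have e2 := hι (e1.trans he)
        obtain ⟨rfl, e3⟩ := Prod.mk.inj e2
        obtain ⟨rfl, rfl⟩ := Prod.mk.inj e3
        exact Der.mk v' ρ hY (fun u hu => absurd ⟨u, hu⟩ h)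
    · rw [code_sink] at hc
      exact absurd hc (by simp)
  | rl x y z hx _ _ ih1 ih2 =>
    obtain ⟨J', r, hc, hY⟩ := fill_true hP2 g hι hg Y _ hx
    rcases r with ⟨v', ρ⟩ | c
    · by_cases h : (P v').Nonempty
      · rw [code_rl hP2 g ι J' v' ρ h] at hc
        injection hc with e1 e2 e3
        refine ⟨fun J v c he => ?_, fun he => absurd (e3.trans he) (hg _)⟩
        have e4 := hι (e3.trans he)
        obtain ⟨rfl, e5⟩ := Prod.mk.inj e4
        obtain ⟨rfl, rfl⟩ := Prod.mk.inj e5
        refine Der.mk v' ρ hY (fun u hu => ?_)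
        rcases pab hP2 v' h u hu with rfl | rfl
        · exact ih1.1 _ _ _ e1.symm
        · exact ih2.1 _ _ _ e2.symm
      · rw [code_ax hP2 g ι J' v' ρ h] at hc
        exact absurd hc (by simp)
    · rw [code_sink] at hc
      injection hc with e1 e2 e3
      refine ⟨fun J v c he => absurd (e3.trans he).symm (hg _), fun _ => ?_⟩
      exact ⟨J', c, hY, ih1.1 _ _ _ e1.symm⟩

lemma solv_iff (hι : Function.Injective ι) (hg : ∀ a, ι a ≠ g)
    (Y : Fin M → PVar P q → Bool) :
    Solv (fill (code hP2 t g ι) Y) g ↔ ∃ J, pebF P t q (Y J) := by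
  constructor
  · intro h
    exact (der_of_solv hP2 g hι hg Y g h).2 rfl
  · rintro ⟨J, c, hc, hd⟩
    have h1 := solv_of_der (t := t) hP2 g hι hg Y J t c hd
    refine Solv.rl _ _ _ ?_ h1 h1
    rw [← code_sink hP2 g ι J c, fill_apply _ (code_inj hP2 g hι hg)]
    exact hc

end

/-- The lower bound for path systems in a host. -/
theorem gen_host (D M : ℕ) (E : Type) [Fintype E] (g : E)
    (hE : M * gno D + 1 ≤ Fintype.card E) :
    ∃ H : Set (PS E), H.ncard ≤ M * vno D ∧ ∀ p : Prog (MSP (PS E)),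
      p.load (spTests _) < 4 ^ (D + 1) →
      (∀ v : PS E → Bool, (∀ i, v i = true → i ∈ H) → (p.Acc (spTests _) v ↔ Solv v g)) →
      M < p.cost := by
  classical
  obtain ⟨V, dV, fV, P, t, lvl, d, q, hq, h1, h2, h3, h4, h5, h7, h6⟩ := exists_gadget D
  have hcard : Fintype.card (Fin M × V × Fin q) ≤ Fintype.card {e : E // e ≠ g} := by
    rw [Fintype.card_prod, Fintype.card_prod, Fintype.card_fin, Fintype.card_fin,
      Fintype.card_subtype_compl, Fintype.card_subtype_eq]
    have := Nat.mul_le_mul_left M h7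
    omega
  obtain ⟨e⟩ := Function.Embedding.nonempty_of_card_le hcard
  obtain ⟨ι, hιe⟩ : ∃ ι : Fin M × V × Fin q → E, ι = fun a => (e a).1 := ⟨_, rfl⟩
  have hι : Function.Injective ι := by
    rw [hιe]
    intro a b hab
    exact e.injective (Subtype.ext hab)
  have hg : ∀ a, ι a ≠ g := by
    intro a
    rw [hιe]
    exact (e a).2
  refine ⟨Set.range (code h1 t g ι), ?_, fun p hload hp => ?_⟩
  · rw [← Set.image_univ, ← Finset.coe_univ]
    refine (Set.ncard_image_le (Finset.finite_toSet _)).trans ?_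
    rw [Set.ncard_coe_finset, Finset.card_univ, Fintype.card_prod, Fintype.card_fin]
    exact Nat.mul_le_mul_left M ((card_pvar' h1 hq).trans h5)
  · refine copies_lt lvl h2 hq h3 h4 (M := M) (fun Y => fill (code h1 t g ι) Y)
      (fun i => fill_cases _ i) p (fun Y => ?_) (h6 _ hload)
    rw [hp (fill (code h1 t g ι) Y) (fun i hi => by
      obtain ⟨J, r, hr, -⟩ := fill_true h1 g hι hg Y i hi
      exact ⟨(J, r), hr⟩)]
    exact solv_iff h1 g hι hg Y

/-- The lower bound for path systems. -/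
theorem gen_bound (D : ℕ) (E : Type) [Fintype E] (g : E) (p : Prog (MSP (PS E)))
    (hload : p.load (spTests _) < 4 ^ (D + 1))
    (hp : ∀ v : PS E → Bool, p.Acc (spTests _) v ↔ Solv v g) :
    Fintype.card E ≤ gno D * p.cost := by
  have hg := gno_pos D
  have hE1 : 1 ≤ Fintype.card E := Fintype.card_pos_iff.mpr ⟨g⟩
  obtain ⟨M, hM⟩ : ∃ M, M = (Fintype.card E - 1) / gno D := ⟨_, rfl⟩
  have h1 : M * gno D ≤ Fintype.card E - 1 := by rw [hM]; exact Nat.div_mul_le_self _ _
  obtain ⟨H, -, hH⟩ := gen_host D M E g (by omega)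
  have h2 := hH p hload (fun v _ => hp v)
  have h3 : Fintype.card E - 1 < (M + 1) * gno D := by
    rw [hM]
    have := Nat.lt_div_mul_add (a := Fintype.card E - 1) hg
    rw [Nat.add_mul, Nat.one_mul]
    exact this
  have h4 : (M + 1) * gno D ≤ p.cost * gno D := Nat.mul_le_mul_right _ h2
  rw [Nat.mul_comm (gno D)]
  omega

end Pool.Agent.W953.SP
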