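import Mathlib
import Pool.Agent.W953.SP.Tree

/-!
# Monotone undirected switching networks
-/

set_option autoImplicit false

namespace Pool.Agent.W953.SP

open Relation

/-- A monotone undirected switching network on the variables `I`: a set `V` of nodes, two of which
are distinguished, edges `free` that are always on, and `size` many edges from `fst e` to `snd e`
which are on if the variable `lab e` is `1`. -/
structure Net (I : Type) where
  V : Type
  src : V
  snk : V
  free : V → V → Prop
  size : ℕ
  lab : Fin size → I
  fst : Fin size → V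
  snd : Fin size → V

namespace Net

variable {I : Type}

/-- an edge between `a` and `b` is on -/
def On (N : Net I) (x : I → Bool) (a b : N.V) : Prop :=
  N.free a b ∨ ∃ e, x (N.lab e) = true ∧ N.fst e = a ∧ N.snd e = b

/-- the network accepts `x` if the distinguished nodes are joined by a path of edges that are on
(in any direction) -/
def Acc (N : Net I) (x : I → Bool) : Prop := EqvGen (N.On x) N.src N.snk

lemma Acc.mono {N : Net I} {x y : I → Bool} (hxy : ∀ i, x i = true → y i = true)
    (h : N.Acc x) : N.Acc y := by
  unfold Acc at h ⊢
  have hon : ∀ a b, N.On x a b → N.On y a b := by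
    rintro a b (h | ⟨e, h1, h2, h3⟩)
    · exact Or.inl h
    · exact Or.inr ⟨e, hxy _ h1, h2, h3⟩
  exact EqvGen.mono hon _ _ h

/-- the span program of a network -/
noncomputable def toMSP (F : Type) [Field F] (N : Net I) : MSP I where
  F := F
  W := N.V →₀ F
  size := N.size
  lab := N.lab
  vec := fun e => Finsupp.single (N.snd e) 1 - Finsupp.single (N.fst e) 1
  free := {w | ∃ a b, N.free a b ∧ w = Finsupp.single b 1 - Finsupp.single a 1}
  target := Finsupp.single N.snk 1 - Finsupp.single N.src 1

theorem toMSP_acc (F : Type) [Field F] (N : Net I) (x : I → Bool) :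
    (N.toMSP F).Acc x ↔ N.Acc x := by
  classical
  set S : Set (N.V →₀ F) := {w | ∃ a b, N.free a b ∧ w = Finsupp.single b 1 - Finsupp.single a 1} ∪
    (fun e => Finsupp.single (N.snd e) 1 - Finsupp.single (N.fst e) 1) ''
      {r | x (N.lab r) = true} with hS
  have hiff : (N.toMSP F).Acc x ↔
      (Finsupp.single N.snk 1 - Finsupp.single N.src 1 : N.V →₀ F) ∈ Submodule.span F S :=
    Iff.rfl
  rw [hiff]
  constructor
  · intro h
    by_contra hcon
    unfold Acc at hcon
    let φ : (N.V →₀ F) →ₗ[F] F := Finsupp.linearCombination F
      (fun v => if EqvGen (N.On x) N.src v then (1 : F) else 0)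
    have hφ : ∀ a b : N.V, φ (Finsupp.single b 1 - Finsupp.single a 1) =
        (if EqvGen (N.On x) N.src b then (1 : F) else 0) -
        (if EqvGen (N.On x) N.src a then (1 : F) else 0) := by
      intro a b
      simp only [φ, map_sub, Finsupp.linearCombination_single, one_smul]
    have hon : ∀ a b, N.On x a b → φ (Finsupp.single b 1 - Finsupp.single a 1) = 0 := by
      intro a b hab
      rw [hφ]
      have : EqvGen (N.On x) N.src b ↔ EqvGen (N.On x) N.src a :=
        ⟨fun h => EqvGen.trans _ _ _ h (EqvGen.symm _ _ (EqvGen.rel _ _ hab)),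
          fun h => EqvGen.trans _ _ _ h (EqvGen.rel _ _ hab)⟩
      simp only [this, sub_self]
    have hker : Submodule.span F S ≤ LinearMap.ker φ := by
      rw [Submodule.span_le]
      rintro w (⟨a, b, hab, rfl⟩ | ⟨e, he, rfl⟩)
      · exact hon a b (Or.inl hab)
      · exact hon _ _ (Or.inr ⟨e, he, rfl, rfl⟩)
    have h0 : φ (Finsupp.single N.snk 1 - Finsupp.single N.src 1) = 0 := hker h
    rw [hφ, if_neg hcon, if_pos (EqvGen.refl _)] at h0
    simp at h0
  · intro h
    have key : ∀ a b, EqvGen (N.On x) a b →
        (Finsupp.single b 1 - Finsupp.single a 1 : N.V →₀ F) ∈ Submodule.span F S := by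
      intro a b hab
      induction hab with
      | rel a b hab =>
        apply Submodule.subset_span
        rcases hab with hab | ⟨e, he, rfl, rfl⟩
        · exact Or.inl ⟨a, b, hab, rfl⟩
        · exact Or.inr ⟨e, he, rfl⟩
      | refl a => rw [sub_self]; exact Submodule.zero_mem _
      | symm a b _ ih =>
        rw [← neg_sub]
        exact Submodule.neg_mem _ ih
      | trans a b c _ _ ih1 ih2 =>
        rw [← sub_add_sub_cancel]
        exact Submodule.add_mem _ ih2 ih1
    exact key _ _ h

end Net

/-- the tests: monotone undirected switching networks -/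
def netTests (I : Type) : Tests (Net I) I where
  acc := Net.Acc
  size := Net.size

lemma netTests_mono (I : Type) : Prog.Mono (netTests I) := fun _ _ _ hxy h => Net.Acc.mono hxy h

end Pool.Agent.W953.SP
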