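import Mathlib
import Pool.Agent.W953.NB.DirCompl
import Pool.Agent.W953.SP.Gen

/-!
# Directed networks as span programs (Savitch)
-/

set_option autoImplicit false

namespace Pool.Agent.W953.SP

open Finset Relation

universe u

/-! ### translation of the tests -/

namespace Prog

variable {T : Type u} {U : Type*} {I : Type}

/-- translation of the tests -/
def map (g : T → U) : Prog T → Prog U
  | out P => out (g P)
  | ask w Q next => ask w (fun i => g (Q i)) (fun a => map g (next a))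

lemma map_cost (g : T → U) : ∀ p : Prog T, (p.map g).cost = p.cost
  | out _ => rfl
  | ask w Q next => by
    have h : ∀ a, (map g (next a)).cost = (next a).cost := fun a => map_cost g (next a)
    show (w + 1) * univ.sup (fun a => (map g (next a)).cost) =
      (w + 1) * univ.sup (fun a => (next a).cost)
    simp only [h]

lemma map_acc (𝒯 : Tests T I) (𝒰 : Tests U I) (g : T → U) (L : ℕ) (x : I → Bool)
    (h : ∀ P, 𝒯.size P ≤ L → (𝒰.acc (g P) x ↔ 𝒯.acc P x)) :
    ∀ (p : Prog T), p.load 𝒯 ≤ L → (Acc 𝒰 (p.map g) x ↔ Acc 𝒯 p x)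
  | out P, hL => h P hL
  | ask w Q next, hL => by
    have hL' : ∑ i, 𝒯.size (Q i) + univ.sup (fun a => (next a).load 𝒯) ≤ L := hL
    have e : ans 𝒰 (fun i => g (Q i)) x = ans 𝒯 Q x := by
      funext i
      rw [Bool.eq_iff_iff, ans_iff, ans_iff]
      apply h
      have := Finset.single_le_sum (f := fun i => 𝒯.size (Q i)) (fun _ _ => Nat.zero_le _)
        (Finset.mem_univ i)
      omega
    show Acc 𝒰 (map g (next (ans 𝒰 (fun i => g (Q i)) x))) x ↔ Acc 𝒯 (next (ans 𝒯 Q x)) x
    rw [e]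
    have h3 := Finset.le_sup (f := fun a => (next a).load 𝒯) (Finset.mem_univ (ans 𝒯 Q x))
    exact map_acc 𝒯 𝒰 g L x h _ (h3.trans (by omega))

lemma map_load (𝒯 : Tests T I) (𝒰 : Tests U I) (g : T → U) (K L : ℕ)
    (h : ∀ P, 𝒯.size P ≤ L → 𝒰.size (g P) ≤ K * 𝒯.size P) :
    ∀ p : Prog T, p.load 𝒯 ≤ L → (p.map g).load 𝒰 ≤ K * p.load 𝒯
  | out P, hL => h P hL
  | ask w Q next, hL => by
    have hL' : ∑ i, 𝒯.size (Q i) + univ.sup (fun a => (next a).load 𝒯) ≤ L := hL
    have h1 : ∀ i, 𝒰.size (g (Q i)) ≤ K * 𝒯.size (Q i) := by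
      intro i
      apply h
      have := Finset.single_le_sum (f := fun i => 𝒯.size (Q i)) (fun _ _ => Nat.zero_le _)
        (Finset.mem_univ i)
      omega
    have h2 : ∀ a, (map g (next a)).load 𝒰 ≤ K * univ.sup (fun a => (next a).load 𝒯) := by
      intro a
      have h3 := Finset.le_sup (f := fun a => (next a).load 𝒯) (Finset.mem_univ a)
      exact (map_load 𝒯 𝒰 g K L h (next a) (h3.trans (by omega))).trans
        (Nat.mul_le_mul_left _ h3)
    show ∑ i, 𝒰.size (g (Q i)) + univ.sup (fun a => (map g (next a)).load 𝒰) ≤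
      K * (∑ i, 𝒯.size (Q i) + univ.sup (fun a => (next a).load 𝒯))
    rw [Nat.mul_add, Finset.mul_sum]
    exact Nat.add_le_add (Finset.sum_le_sum (fun i _ => h1 i)) (Finset.sup_le (fun a _ => h2 a))

end Prog

end Pool.Agent.W953.SP

namespace Pool.Agent.W953.NB

open Relation Finset Pool.Agent.H540R2 Pool.Agent.W953.NW Pool.Agent.W953.SP

/-! ### Savitch -/

lemma any_sum {n t : ℕ} (𝓜 : Model) : ∀ (m : ℕ) (g : Fin (m + 1) → BF n),
    (∀ i, 𝓜.K (g i) t) → 𝓜.K (fun x => decide (∃ i, g i x = true)) ((m + 1) * t)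
  | 0, g, hg => by
    refine 𝓜.congr (𝓜.mono (hg 0) (by omega)) (fun x => ?_)
    rw [Bool.eq_iff_iff, decide_eq_true_iff]
    constructor
    · intro h
      exact ⟨0, h⟩
    · rintro ⟨i, hi⟩
      have : i = 0 := Subsingleton.elim (α := Fin 1) _ _
      rwa [this] at hi
  | m + 1, g, hg => by
    refine 𝓜.congr (𝓜.mono (𝓜.or (hg 0) (any_sum 𝓜 m (fun i => g i.succ)
      (fun i => hg _))) (le_of_eq (by ring))) (fun x => ?_)
    rw [Bool.eq_iff_iff, decide_eq_true_iff, Bool.or_eq_true, decide_eq_true_iff]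
    constructor
    · rintro (h | ⟨i, hi⟩)
      · exact ⟨0, h⟩
      · exact ⟨i.succ, hi⟩
    · rintro ⟨i, hi⟩
      rcases Fin.eq_zero_or_eq_succ i with h | ⟨j, h⟩
      · rw [h] at hi
        exact Or.inl hi
      · rw [h] at hi
        exact Or.inr ⟨j, hi⟩

section

variable {n : ℕ} (N : Net (Fin n)) (x : Fin n → Bool)

/-- `2 ^ j` steps -/
def DN : ℕ → Fin (2 * N.size + 2) → Fin (2 * N.size + 2) → Prop
  | 0, p, q => SN N x p q
  | j + 1, p, q => ∃ c, DN j p c ∧ DN j c q

lemma path_add {m : ℕ} {g : Fin m → Fin m → Prop} {a c : Fin m} {d e : ℕ}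
    (h : Path (fun _ => g) a d c) : ∀ {b : Fin m}, Path (fun _ => g) c e b →
    Path (fun _ => g) a (d + e) b := by
  induction e with
  | zero =>
    intro b hb
    have : c = b := hb
    rw [← this]
    exact h
  | succ e ih =>
    rintro b ⟨b', hb', hg⟩
    exact ⟨b', ih hb', hg⟩

lemma path_split {m : ℕ} {g : Fin m → Fin m → Prop} {a : Fin m} {d e : ℕ} :
    ∀ {b : Fin m}, Path (fun _ => g) a (d + e) b →
    ∃ c, Path (fun _ => g) a d c ∧ Path (fun _ => g) c e b := by
  induction e with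
  | zero =>
    intro b hb
    exact ⟨b, hb, rfl⟩
  | succ e ih =>
    rintro b ⟨b', hb', hg⟩
    obtain ⟨c, h1, h2⟩ := ih hb'
    exact ⟨c, h1, b', h2, hg⟩

lemma DN_iff (j : ℕ) : ∀ p q, DN N x j p q ↔ Path (fun _ => SN N x) p (2 ^ j) q := by
  induction j with
  | zero =>
    intro p q
    constructor
    · intro h
      exact ⟨p, rfl, h⟩
    · rintro ⟨c, hc, h⟩
      have : p = c := hc
      rw [← this] at h
      exact h
  | succ j ih =>
    intro p q
    rw [pow_succ, Nat.mul_two]
    constructor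
    · rintro ⟨c, h1, h2⟩
      exact path_add ((ih _ _).mp h1) ((ih _ _).mp h2)
    · intro h
      obtain ⟨c, h1, h2⟩ := path_split h
      exact ⟨c, (ih _ _).mpr h1, (ih _ _).mpr h2⟩

open Classical in
lemma SN_K (hs : 1 ≤ N.size) (p q : Fin (2 * N.size + 2)) :
    und.K (fun x => decide (SN N x p q)) (N.size + 1) := by
  obtain ⟨s, hs'⟩ : ∃ s, N.size = s + 1 := ⟨N.size - 1, by omega⟩
  let g : Fin (s + 1) → BF n := fun e x =>
    if Fr N (node N p) (N.fst (Fin.cast hs'.symm e)) ∧ Fr N (N.snd (Fin.cast hs'.symm e)) (node N q)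
      then x (N.lab (Fin.cast hs'.symm e)) else false
  have hg : ∀ e, und.K (g e) 1 := by
    intro e
    by_cases h : Fr N (node N p) (N.fst (Fin.cast hs'.symm e)) ∧
      Fr N (N.snd (Fin.cast hs'.symm e)) (node N q)
    · refine und.congr (und.var (N.lab (Fin.cast hs'.symm e))) (fun x => ?_)
      simp only [g, if_pos h]
    · refine und.congr (und.const false) (fun x => ?_)
      simp only [g, if_neg h]
  refine und.congr (und.mono (und.or (any_sum und s g hg)
    (und.const (decide (Fr N (node N p) (node N q))))) (by omega)) (fun x => ?_)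
  rw [Bool.eq_iff_iff, Bool.or_eq_true, decide_eq_true_iff, decide_eq_true_iff, decide_eq_true_iff]
  unfold SN Stp1
  constructor
  · rintro (⟨e, he⟩ | h)
    · right
      simp only [g] at he
      by_cases h : Fr N (node N p) (N.fst (Fin.cast hs'.symm e)) ∧
        Fr N (N.snd (Fin.cast hs'.symm e)) (node N q)
      · rw [if_pos h] at he
        exact ⟨_, he, h⟩
      · rw [if_neg h] at he
        exact absurd he (by simp)
    · exact Or.inl h
  · rintro (h | ⟨e, he, h⟩)
    · exact Or.inr h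
    · left
      refine ⟨Fin.cast hs' e, ?_⟩
      have e1 : Fin.cast hs'.symm (Fin.cast hs' e) = e := Fin.ext rfl
      simp only [g]
      rw [e1, if_pos h]
      exact he

open Classical in
lemma DN_K (hs : 1 ≤ N.size) (j : ℕ) : ∀ p q, und.K (fun x => decide (DN N x j p q))
    ((2 * (2 * N.size + 2)) ^ j * (N.size + 1)) := by
  induction j with
  | zero =>
    intro p q
    rw [pow_zero, one_mul]
    exact SN_K N hs p q
  | succ j ih =>
    intro p q
    have h1 := any_sum und (2 * N.size + 1) (fun c x => decide (DN N x j p c) &&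
      decide (DN N x j c q)) (fun c => und.and (ih p c) (ih c q))
    refine und.congr (und.mono h1 (le_of_eq (by rw [pow_succ]; ring))) (fun x => ?_)
    rw [Bool.eq_iff_iff, decide_eq_true_iff, decide_eq_true_iff]
    simp only [Bool.and_eq_true, decide_eq_true_eq]
    exact Iff.rfl

theorem savitch (hs : 1 ≤ N.size) (j : ℕ) (hj : 2 * N.size + 2 ≤ 2 ^ j) :
    ∃ M : Net (Fin n), M.size ≤ (2 * (2 * N.size + 2)) ^ j * (N.size + 1) ∧
      ∀ x, M.Acc x ↔ N.DAcc x := by
  classical
  obtain ⟨M, h1, h2⟩ := DN_K N hs j (zeroN N) (oneN N)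
  refine ⟨M, h1, fun x => ?_⟩
  rw [h2, decide_eq_true_iff, DN_iff, acc_iff_RS]
  constructor
  · intro h
    apply RS_final N x (2 ^ j)
    rw [mem_RS]
    exact h
  · intro h
    rw [mem_RS] at h
    exact Rd_mono N x hj h

end

/-- a network without labelled edges -/
def cNet (I : Type) (p : Prop) : Net I where
  V := Bool
  src := false
  snk := true
  free := fun _ _ => p
  size := 0
  lab := Fin.elim0
  fst := Fin.elim0
  snd := Fin.elim0

lemma cNet_acc {I : Type} (p : Prop) (x : I → Bool) : (cNet I p).Acc x ↔ p := by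
  constructor
  · intro h
    by_contra hcon
    refine Net.not_acc (N := cNet I p) (x := x) (fun a => a = false) ?_ rfl (by simp [cNet]) h
    rintro a b' (h | ⟨e, -⟩)
    · exact absurd h hcon
    · exact e.elim0
  · intro h
    exact EqvGen.rel _ _ (Or.inl h)

/-- the edges as variables -/
def edgeNet {I : Type} (N : Net I) : Net (Fin N.size) where
  V := N.V
  src := N.src
  snk := N.snk
  free := N.free
  size := N.size
  lab := id
  fst := N.fst
  snd := N.snd

/-- renaming of the variables -/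
def relab {I J : Type} (g : I → J) (M : Net I) : Net J where
  V := M.V
  src := M.src
  snk := M.snk
  free := M.free
  size := M.size
  lab := fun e => g (M.lab e)
  fst := M.fst
  snd := M.snd

/-- Savitch's theorem for arbitrary variables -/
theorem savitch' {I : Type} (N : Net I) (ℓ : ℕ) (hℓ : N.size ≤ 2 ^ ℓ) :
    ∃ M : Net I, M.size ≤ 2 ^ (ℓ ^ 2 + 5 * ℓ + 7) * N.size ∧ ∀ x, M.Acc x ↔ N.DAcc x := by
  classical
  by_cases hs : N.size = 0
  · -- a constant
    refine ⟨cNet I (ReflTransGen N.free N.src N.snk), Nat.zero_le _, fun x => ?_⟩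
    have hon : N.On x = N.free := by
      funext a b
      apply propext
      constructor
      · rintro (h | ⟨e, -⟩)
        · exact h
        · exact absurd e.isLt (by omega)
      · exact Or.inl
    have e1 : N.DAcc x ↔ ReflTransGen N.free N.src N.snk := by
      unfold SP.Net.DAcc
      rw [hon]
    rw [e1]
    exact cNet_acc _ x
  · obtain ⟨N', hN'⟩ : ∃ N' : Net (Fin N.size), N' = edgeNet N := ⟨_, rfl⟩
    have hsz : N'.size = N.size := by rw [hN']; rfl
    have hacc : ∀ x : I → Bool, N'.DAcc (fun e => x (N.lab e)) ↔ N.DAcc x := by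
      intro x
      rw [hN']
      exact Iff.rfl
    obtain ⟨M, h1, h2⟩ := savitch N' (by rw [hsz]; omega) (ℓ + 2) (by
      rw [hsz, pow_add]
      have : 1 ≤ 2 ^ ℓ := Nat.one_le_two_pow
      omega)
    refine ⟨relab N.lab M, ?_, fun x => ?_⟩
    · show M.size ≤ _
      rw [hsz] at h1
      refine h1.trans ?_
      have e1 : 2 * (2 * N.size + 2) ≤ 2 ^ (ℓ + 3) := by
        rw [pow_add]
        have : 1 ≤ 2 ^ ℓ := Nat.one_le_two_pow
        omega
      have e2 : N.size + 1 ≤ 2 * N.size := by omega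
      calc (2 * (2 * N.size + 2)) ^ (ℓ + 2) * (N.size + 1) ≤
          (2 ^ (ℓ + 3)) ^ (ℓ + 2) * (2 * N.size) :=
            Nat.mul_le_mul (Nat.pow_le_pow_left e1 _) e2
        _ = 2 ^ (ℓ ^ 2 + 5 * ℓ + 7) * N.size := by
          rw [← pow_mul, ← mul_assoc, ← pow_succ]
          congr 2
          ring
    · rw [← hacc, ← h2]
      exact Iff.rfl

end Pool.Agent.W953.NB

namespace Pool.Agent.W953.SP

open Finset Relation

/-- directed networks as span programs -/
theorem exists_toMSP {I : Type} (ℓ : ℕ) : ∃ g : Net I → MSP I,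
    ∀ N : Net I, N.size ≤ 2 ^ ℓ → (g N).size ≤ 2 ^ (ℓ ^ 2 + 5 * ℓ + 7) * N.size ∧
      ∀ x, (g N).Acc x ↔ N.DAcc x := by
  have h : ∀ N : Net I, ∃ M : MSP I, N.size ≤ 2 ^ ℓ →
      M.size ≤ 2 ^ (ℓ ^ 2 + 5 * ℓ + 7) * N.size ∧ ∀ x, M.Acc x ↔ N.DAcc x := by
    intro N
    by_cases hN : N.size ≤ 2 ^ ℓ
    · obtain ⟨M, h1, h2⟩ := NB.savitch' N ℓ hN
      exact ⟨M.toMSP ℚ, fun _ => ⟨h1, fun x => (M.toMSP_acc ℚ x).trans (h2 x)⟩⟩
    · exact ⟨N.toMSP ℚ, fun h => absurd h hN⟩
  choose g hg using h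
  exact ⟨g, hg⟩

end Pool.Agent.W953.SP
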